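import Pool.Agent.Lib.MP_af3a4a_an.P1.CHK.DATA.N5.C10
import Pool.Agent.Lib.MP_af3a4a_an.P1.CHK.DATA.N5.C2
import Pool.Agent.Lib.MP_af3a4a_an.P1.CHK.DATA.N5.C3
import Pool.Agent.Lib.MP_af3a4a_an.P1.CHK.DATA.N5.C4
import Pool.Agent.Lib.MP_af3a4a_an.P1.CHK.DATA.N5.C5
import Pool.Agent.Lib.MP_af3a4a_an.P1.CHK.DATA.N5.C6
import Pool.Agent.Lib.MP_af3a4a_an.P1.CHK.DATA.N5.C7
import Pool.Agent.Lib.MP_af3a4a_an.P1.CHK.DATA.N5.C8
import Pool.Agent.Lib.MP_af3a4a_an.P1.CHK.DATA.N5.C9
import Pool.Agent.Lib.MP_af3a4a_an.P1.CHK.DATA.F.W480a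
import Pool.Agent.Lib.MP_af3a4a_an.P1.CHK.DATA.F.W480b
import Pool.Agent.Lib.MP_af3a4a_an.P1.CHK.DATA.F.W528b
import Pool.Agent.Lib.MP_af3a4a_an.P1.CHK.DATA.F.W528c

/-! chunks for 5 <= N <= 5 (generated) -/

set_option autoImplicit false
set_option maxRecDepth 100000

namespace Pool.Agent.Lib.MP_af3a4a_an.P1.CHK.DATA.N5

open BOX

def t147 : Tree := (.sR 2080 (.leaf 0x4584c000441e00e1100000000b444d044) (.sR 2096 (.leaf 0x4504c000481e00e1100000000b4449044) (.sr 2240 (.sg 57 (.sR 2128 (.sR 2112 (.leaf 0x44054000241e00d1209c0f37480441040) (.sr 2208 (.leaf 0x40058000101e001128ac40dac80401040) (.leaf 0x40058000101e002128ac40dac80401040))) (.sR 2144 (.leaf 0x400500002c1e0151180000000b0401004) (.sR 2160 (.leaf 0x440540001c1e00d1208c1609e80441040) (.sr 2208 (.sR 2192 (.sR 2176 (.leaf 0x3e074000041e001160e8a5629803e1040) (.leaf 0x3d078000141e001168d4d820a803d1040)) (.sR 2208 (.leaf 0x3f078000201e001168dcc068a803f1040) (.sR 2224 (.leaf 0x41074000281e001168e4a998180411040) (.leaf 0x4405c000341e00113094164aa80441040))))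 (.sR 2192 (.sR 2176 (.leaf 0x3e074000041e002160e8a5629803e1040) (.leaf 0x3e078000141e002168d4d794e803e1040)) (.sR 2208 (.leaf 0x40078000201e002168dcbf1aa80401040) (.sR 2224 (.leaf 0x41070000281e002158fc56b6d80411040) (.sR 2232 (.leaf 0x42074000181e002160fc6844480421040) (.sr 2224 (.leaf 0x3f0700400c20017168ec9494c803f1040) (.leaf 0x3f0740000c1e018168ec9494c803f1040)))))))))) (.sR 2144 (.sR 2112 (.leaf 0x43058000241e007128b01b92180431040) (.sR 2128 (.leaf 0x44050000101e007118841eaa980441040) (.leaf 0x400500002c1e0161180000000b0401004))) (.sR 2176 (.sR 2160 (.leaf 0x450540001c1e0071208c0503e80451040) (.sr 2208 (.leaf 0x3d0700400420006160e8a5f2b803d1040) (.leaf 0x3e074000041e008160e8a5629803e1040))) (.sR 2192 (.leaf 0x42070000141e007158fc6280980421040) (.sr 2208 (.sR 2208 (.leaf 0x3e0740402020006168dcc1550803e1040) (.sR 2224 (.leaf 0x400700402820006168e4ab71b80401040) (.leaf 0x4105c0403420006138a43be8080411040))) (.sR 2208 (.leaf 0x3f078000201e008168dcc068a803f1040) (.sR 2224 (.leaf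 0x43074000281e008168e4a4a5c80431040) (.leaf 0x42060000341e008138a42e13280421040)))))))) (.sg 57 (.sR 2128 (.sR 2112 (.leaf 0x44050000241e01b1188c13fab80441040) (.sr 2272 (.leaf 0x40058000101e004128ac40dac80401040) (.leaf 0x40058000101e005128ac40dac80401040))) (.sR 2144 (.leaf 0x400500002c1e01c1180000000b0401004) (.sr 2272 (.sR 2176 (.sR 2160 (.leaf 0x3f0640001c1e004140e0460fc803f1040) (.leaf 0x40074000041e004160e8a322c80401040)) (.sR 2192 (.leaf 0x3f078000141e004168d4d6b3a803f1040) (.sR 2208 (.leaf 0x42074000201e004160f47fa5080421040) (.sr 2256 (.sR 2224 (.sr 2248 (.sR 2216 (.leaf 0x43070000081e01a160f86fad680431040) (.sr 2244 (.leaf 0x4106c0400020019160f870a3580411040) (.leaf 0x42070000001e01e160f86d6e380421040))) (.sR 2216 (.leaf 0x42070000081e010160f87307680421040) (.leaf 0x4306c000001e010150f0373c380431040))) (.sR 2232 (.leaf 0x3e078000181e00f168e89d535803e1040) (.leaf 0x3f0740000c1e00f168ec9494c803f1040))) (.sR 2224 (.sr 2264 (.sR 2216 (.leaf 0x42070000081e011160f87307680421040)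 (.leaf 0x4306c000001e011150f0373c380431040)) (.sR 2216 (.leaf 0x42070000081e013160f87307680421040) (.leaf 0x4406c000001e013150f03159880441040))) (.sR 2232 (.leaf 0x3e078000181e012168e89d535803e1040) (.leaf 0x3f0740000c1e012168ec9494c803f1040))))))) (.sR 2176 (.sR 2160 (.leaf 0x400640001c1e005140e03f61d80401040) (.leaf 0x41074000041e005160e8a16b580411040)) (.sR 2192 (.leaf 0x40078000141e005168d4d574680401040) (.sR 2200 (.sr 2288 (.leaf 0x4405c000301e009130a01358680441040) (.leaf 0x4305c000301e00b130a01f5fd80431040)) (.sR 2208 (.leaf 0x400780003c1e005168e0b4f1680401040) (.sr 2288 (.sR 2224 (.sr 2280 (.sR 2216 (.leaf 0x43070000081e021160f86fad680431040) (.leaf 0x44060000381e02013888b154480441080)) (.sR 2216 (.leaf 0x42070000081e014160f87307680421040) (.leaf 0x4306c000001e014150f0373c380431040))) (.sR 2232 (.leaf 0x3e078000181e009168e89d535803e1040) (.leaf 0x3f0740000c1e009168ec9494c803f1040))) (.sR 2224 (.sR 2216 (.leaf 0x46058000401e028130808b5ef80461080) (.sr 2296 (.leaf 0x42070000001e027160f86d6e380421040)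 (.leaf 0x42070000001e02a160f86d6e380421040))) (.sR 2232 (.leaf 0x3e078000181e00b168e89d535803e1040) (.leaf 0x3f0740000c1e00b168ec9494c803f1040))))))))))) (.sR 2128 (.sr 2272 (.sR 2112 (.leaf 0x3e068000241e000158e4af32d803e1040) (.leaf 0x3f058000101e000128ac4ea8e803f1040)) (.sR 2112 (.leaf 0x3e068000241e003158e4af32d803e1040) (.leaf 0x40058000101e003128ac40dac80401040))) (.sR 2144 (.leaf 0x400500002c1e01d1180000000b0401004) (.sr 2272 (.sR 2192 (.sR 2160 (.leaf 0x410680001c1e000158f87b6d480411040) (.sR 2176 (.leaf 0x3e074000041e000160e8a5629803e1040) (.leaf 0x3d078000141e000168d4d820a803d1040))) (.sR 2208 (.leaf 0x41078000201e000168dcbd66080411040) (.sR 2224 (.leaf 0x43070000281e000158fc4e05480431040) (.leaf 0x43060000341e000138a4212ac80431040)))) (.sR 2176 (.sR 2160 (.leaf 0x400640001c1e003140e03f61d80401040) (.leaf 0x40074000041e003160e8a322c80401040)) (.sR 2192 (.leaf 0x3f078000141e003168d4d6b3a803f1040) (.sR 2200 (.sr 2288 (.leaf 0x4305c000301e00a130a01f5fd80431040) (.leaf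 0x4405c000301e00c130a01358680441040)) (.sR 2208 (.leaf 0x3f0780003c1e003168e0b64ea803f1040) (.sr 2288 (.sR 2224 (.sr 2280 (.sR 2216 (.leaf 0x43070000081e022160f86fad680431040) (.sr 2276 (.leaf 0x42074000001e01f168e89e47480421040) (.leaf 0x42074000001e023168e89e47480421040))) (.sR 2216 (.leaf 0x42070000081e025160f87307680421040) (.leaf 0x45064000381e024140949f85780451080))) (.sR 2232 (.leaf 0x3d078000181e00a168e89e384803d1040) (.leaf 0x3e0740000c1e00a168ec9601c803e1040))) (.sR 2224 (.sR 2216 (.leaf 0x46058000401e029130808b5ef80461080) (.sr 2296 (.leaf 0x45060000381e026138889bb2380451080) (.leaf 0x42070000001e02b160f86d6e380421040))) (.sR 2232 (.leaf 0x3e078000181e00c168e89d535803e1040) (.leaf 0x3f0740000c1e00c168ec9494c803f1040)))))))))))))))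
theorem k147 : ChunkP 5 5 2176 2304 56 58 2048 2240 :=
  chkD_sound (Q := 40) (C := [c1414.c, c1169.c, c1341.c, c1563.c, c1413.c, c1562.c, c1171.c, c1227.c, c1343.c, c1532.c, c1533.c, c1599.c, c1600.c, c1226.c, c1282.c, c1385.c, c1484.c, c1490.c, c1502.c, c1509.c, c1577.c, c1230.c, c1231.c, c1312.c, c1363.c, c1366.c, c1373.c, c1468.c, c1471.c, c1472.c, c1477.c, c1511.c, c1515.c, c1518.c, c1519.c, c1568.c, c1574.c, c1578.c, c1584.c, c1587.c, c1595.c, c1596.c, c1607.c, c1608.c])
    (T := [f_w554_556_4_42_42d, f_w540_544_4_39_42d, f_w552_554_4_42_42d, f_w558_560_4_39_42d, f_w528_532_4_40_45d, f_w544_548_4_36_42d, f_w556_558_4_39_42d, f_w536_540_4_39_42d, f_w548_552_4_35_40d, f_w524_528_4_40_45d, f_w552_556_4_36_39d, f_w532_536_0_39_42d, f_w548_550_4_42_45d, f_w556_560_4_33_42d, f_w554_556_8_39_42d, f_w550_552_4_39_42d, f_w552_554_8_39_45d, f_w512_520_4_30_40d, f_w520_524_4_35_45d]) (t := t147)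
    (all_cons p1414 (all_cons p1169 (all_cons p1341 (all_cons p1563 (all_cons p1413 (all_cons p1562 (all_cons p1171 (all_cons p1227 (all_cons p1343 (all_cons p1532 (all_cons p1533 (all_cons p1599 (all_cons p1600 (all_cons p1226 (all_cons p1282 (all_cons p1385 (all_cons p1484 (all_cons p1490 (all_cons p1502 (all_cons p1509 (all_cons p1577 (all_cons p1230 (all_cons p1231 (all_cons p1312 (all_cons p1363 (all_cons p1366 (all_cons p1373 (all_cons p1468 (all_cons p1471 (all_cons p1472 (all_cons p1477 (all_cons p1511 (all_cons p1515 (all_cons p1518 (all_cons p1519 (all_cons p1568 (all_cons p1574 (all_cons p1578 (all_cons p1584 (all_cons p1587 (all_cons p1595 (all_cons p1596 (all_cons p1607 (all_cons p1608 all_nil)))))))))))))))))))))))))))))))))))))))))))) (all_cons f_w554_556_4_42_42d_p (all_cons f_w540_544_4_39_42d_p (all_cons f_w552_554_4_42_42d_p (all_cons f_w558_560_4_39_42d_p (all_cons f_w528_532_4_40_45d_p (all_cons f_w544_548_4_36_42d_p (all_cons f_w556_558_4_39_42d_p (all_cons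 f_w536_540_4_39_42d_p (all_cons f_w548_552_4_35_40d_p (all_cons f_w524_528_4_40_45d_p (all_cons f_w552_556_4_36_39d_p (all_cons f_w532_536_0_39_42d_p (all_cons f_w548_550_4_42_45d_p (all_cons f_w556_560_4_33_42d_p (all_cons f_w554_556_8_39_42d_p (all_cons f_w550_552_4_39_42d_p (all_cons f_w552_554_8_39_45d_p (all_cons f_w512_520_4_30_40d_p (all_cons f_w520_524_4_35_45d_p all_nil)))))))))))))))))))
    (by decide +kernel)
def t148 : Tree := (.sR 2080 (.leaf 0x4584c0003c1e00a1100000000b444d044) (.sR 2096 (.leaf 0x4504c000401e00a1100000000b4449044) (.sr 2240 (.sg 59 (.sR 2144 (.sR 2112 (.leaf 0x41064000201e00314904534aa80411040) (.sR 2128 (.leaf 0x44054000081e003120980fe3680441040) (.leaf 0x4004c040242000c1180000000b0401004))) (.sR 2176 (.sR 2160 (.leaf 0x450540000c1e0031208c0503e80451040) (.leaf 0x4205c0002c1e003130ac299ae80421040)) (.sR 2192 (.leaf 0x41078000101e003168d4d3d0680411040) (.sr 2208 (.sR 2208 (.leaf 0x3d078000041e006168dcc1e6a803d1040) (.sR 2224 (.leaf 0x3e074000141e006168e4adf1a803e1040)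 (.leaf 0x3f060000001e006138a4596d1803f1040))) (.sR 2208 (.leaf 0x3e078000041e008168dcc1550803e1040) (.sR 2224 (.leaf 0x40074000141e008168e4ab71b80401040) (.leaf 0x40060000001e008138a44a6a880401040))))))) (.sR 2144 (.sR 2112 (.leaf 0x42068000201e004158e4aa47a80421040) (.sR 2128 (.leaf 0x43058000081e004128ac1ba5780431040) (.leaf 0x4004c040242000d1180000000b0401004))) (.sR 2176 (.sR 2160 (.leaf 0x450540000c1e0041208c0503e80451040) (.leaf 0x4005c0002c1e004130ac436f080401040)) (.sR 2192 (.leaf 0x3f078000101e004168d4d6b3a803f1040) (.sr 2208 (.sR 2208 (.leaf 0x3c078000041e007168dcc2258803c1040) (.sR 2224 (.leaf 0x3d074000141e007168e4aea00803d1040) (.leaf 0x3e060000001e007138a468cce803e1040))) (.sR 2208 (.leaf 0x3d078000041e009168dcc1e6a803d1040) (.sR 2224 (.leaf 0x3f074000141e009168e4ace3c803f1040) (.leaf 0x3f060000001e009138a4596d1803f1040)))))))) (.sg 59 (.sR 2128 (.sR 2112 (.leaf 0x44054000201e00e1209c0f37480441040) (.sr 2272 (.leaf 0x41068000081e000158ec996cd80411040) (.leaf 0x41068000081e002158ec996cd80411040)))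 (.sR 2144 (.leaf 0x40050000241e00f1180000000b0401004) (.sr 2272 (.sR 2192 (.sR 2160 (.leaf 0x4006c0000c1e000160e0b638f80401040) (.sR 2176 (.leaf 0x3e074000301e000160e8a5629803e1040) (.leaf 0x3c078000101e000168d4d860a803c1040))) (.sR 2208 (.leaf 0x40078000041e000168dcbf1aa80401040) (.sR 2224 (.leaf 0x42070000141e000158fc5278b80421040) (.leaf 0x41060000001e000138a43be8080411040)))) (.sR 2176 (.sR 2160 (.leaf 0x440680000c1e002158f872ba580441040) (.leaf 0x40074000301e002160e8a322c80401040)) (.sR 2192 (.leaf 0x3e078000101e002168d4d794e803e1040) (.sR 2224 (.sR 2200 (.sr 2288 (.leaf 0x4405c000341e015130a01358680441040) (.leaf 0x4505c000341e021130a009dfb80451040)) (.sR 2208 (.leaf 0x3f078000441e002168e0b64ea803f1040) (.sr 2288 (.sr 2280 (.sR 2216 (.leaf 0x42070000381e014160f87307680421040) (.sr 2276 (.leaf 0x42074000181e012168e89e47480421040) (.leaf 0x42074000181e017168e89e47480421040))) (.sR 2216 (.leaf 0x43070000381e01b160f86fad680431040) (.sr 2284 (.leaf 0x42074000181e019168e89e47480421040)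 (.leaf 0x42074000181e01d168e89e47480421040)))) (.sR 2216 (.leaf 0x4605c000281e01f1388c84b9680461080) (.sr 2296 (.leaf 0x450600001c1e01e138889bb2380451080) (.sr 2300 (.leaf 0x42074000181e022168e89e47480421040) (.leaf 0x43074000181e023168e89b81080431040))))))) (.leaf 0x43060000001e002138a4212ac80431040))))))) (.sR 2144 (.sR 2112 (.leaf 0x42064000201e00b149044fac180421040) (.sR 2128 (.sr 2272 (.leaf 0x3e068000081e001158ec9d049803e1040) (.leaf 0x3d068000081e005158ec9d772803d1040)) (.leaf 0x40050000241e0101180000000b0401004))) (.sR 2160 (.sr 2272 (.leaf 0x3f06c0000c1e001160e0b762f803f1040) (.leaf 0x4006c0000c1e005160e0b638f80401040)) (.sR 2176 (.leaf 0x4305c0002c1e00b130ac1dfb880431040) (.sr 2272 (.sR 2208 (.sR 2192 (.leaf 0x3c078000101e001168d4d860a803c1040) (.leaf 0x3f078000041e001168dcc068a803f1040)) (.sR 2224 (.leaf 0x41074000141e001168e4a998180411040) (.leaf 0x3f060000001e001138a4596d1803f1040))) (.sR 2208 (.sR 2192 (.leaf 0x3c078000101e005168d4d860a803c1040) (.leaf 0x40078000041e005168dcbf1aa80401040))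 (.sR 2224 (.sr 2288 (.sr 2280 (.sR 2216 (.leaf 0x42064000281e0131489ce4a8f80421080) (.sr 2276 (.leaf 0x450640001c1e011140949f85780451080) (.leaf 0x450600001c1e016138889bb2380451080))) (.sR 2216 (.leaf 0x42064000281e01a1489ce4a8f80421080) (.sr 2284 (.leaf 0x440640001c1e01814094b30b680441080) (.leaf 0x450600001c1e01c138889bb2380451080)))) (.sR 2216 (.leaf 0x45060000281e020140949fd1380451080) (.leaf 3))) (.leaf 0x40060000001e005138a44a6a880401040)))))))))))
theorem k148 : ChunkP 5 5 2176 2304 58 60 2048 2240 :=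
  chkD_sound (Q := 40) (C := [c1415.c, c1416.c, c1564.c, c1228.c, c1229.c, c1565.c, c1172.c, c1174.c, c1344.c, c1345.c, c1284.c, c1470.c, c1233.c, c1235.c, c1469.c, c1473.c, c1474.c, c1510.c, c1512.c, c1517.c, c1520.c, c1534.c, c1567.c, c1569.c, c1570.c, c1571.c, c1576.c, c1579.c, c1580.c, c1581.c, c1585.c, c1597.c, c1598.c, c1601.c, c1602.c, c1609.c])
    (T := [f_w556_560_4_33_42d, f_w548_552_4_35_40d, f_w528_532_4_40_45d, f_w536_540_4_39_42d, f_w544_548_4_36_42d, f_w552_556_4_36_39d, f_w554_556_4_42_42d, f_w554_556_8_39_42d, f_w524_528_4_40_45d, f_w532_536_0_39_42d, f_w552_554_8_39_45d, f_w540_544_4_36_45d, f_w540_544_4_39_42d, f_w548_550_4_42_45d, f_w552_554_4_42_42d, f_w512_520_4_30_40d, f_w520_524_4_35_45d, f_w550_552_4_39_42d]) (t := t148)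
    (all_cons p1415 (all_cons p1416 (all_cons p1564 (all_cons p1228 (all_cons p1229 (all_cons p1565 (all_cons p1172 (all_cons p1174 (all_cons p1344 (all_cons p1345 (all_cons p1284 (all_cons p1470 (all_cons p1233 (all_cons p1235 (all_cons p1469 (all_cons p1473 (all_cons p1474 (all_cons p1510 (all_cons p1512 (all_cons p1517 (all_cons p1520 (all_cons p1534 (all_cons p1567 (all_cons p1569 (all_cons p1570 (all_cons p1571 (all_cons p1576 (all_cons p1579 (all_cons p1580 (all_cons p1581 (all_cons p1585 (all_cons p1597 (all_cons p1598 (all_cons p1601 (all_cons p1602 (all_cons p1609 all_nil)))))))))))))))))))))))))))))))))))) (all_cons f_w556_560_4_33_42d_p (all_cons f_w548_552_4_35_40d_p (all_cons f_w528_532_4_40_45d_p (all_cons f_w536_540_4_39_42d_p (all_cons f_w544_548_4_36_42d_p (all_cons f_w552_556_4_36_39d_p (all_cons f_w554_556_4_42_42d_p (all_cons f_w554_556_8_39_42d_p (all_cons f_w524_528_4_40_45d_p (all_cons f_w532_536_0_39_42d_p (all_cons f_w552_554_8_39_45d_p (all_cons f_w540_544_4_36_45d_p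 (all_cons f_w540_544_4_39_42d_p (all_cons f_w548_550_4_42_45d_p (all_cons f_w552_554_4_42_42d_p (all_cons f_w512_520_4_30_40d_p (all_cons f_w520_524_4_35_45d_p (all_cons f_w550_552_4_39_42d_p all_nil))))))))))))))))))
    (by decide +kernel)
def t149 : Tree := (.sr 2176 (.sR 2016 (.sR 1952 (.leaf 0x47048040241e0041080000000b0461044) (.sR 1984 (.leaf 0x3f058040281e004128f43e9ba803f1040) (.leaf 0x440580002c1e004128e4200e880441040))) (.sR 2080 (.sR 2048 (.leaf 0x4604c000301e0041100000000b8455044) (.leaf 0x4584c000341e0041100000000b444d044)) (.sR 2112 (.leaf 0x4004c000381e0191100000000b4401004) (.sg 62 (.sr 2112 (.sR 2160 (.sR 2128 (.sg 61 (.leaf 0x400540400820002128ac40dac80401040) (.leaf 0x400540400820003128ac40dac80401040)) (.sR 2144 (.leaf 0x400740001c1e0181610c46bac80401000) (.sg 61 (.leaf 0x400680400020002160e0b638f80401040) (.leaf 0x3f0680400020003160e0b762f803f1040)))) (.sR 2176 (.leaf 0x4205c000101e011130ac299ae80421040) (.sR 2192 (.leaf 0x3f078000141e011168d4d6b3a803f1040)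 (.sg 61 (.sR 2208 (.leaf 0x3c0740400420002168dcc2258803c1040) (.sR 2224 (.leaf 0x3f0700400c20002168e4ace3c803f1040) (.leaf 0x3f05c0401820002138a4596d1803f1040))) (.sR 2208 (.leaf 0x3c0740400420003168dcc2258803c1040) (.sR 2224 (.leaf 0x3e0700400c20003168e4adf1a803e1040) (.leaf 0x3e060000181e003138a468cce803e1040))))))) (.sR 2144 (.sR 2128 (.sg 61 (.leaf 0x410540400820000128ac339d280411040) (.leaf 0x41058000081e001128ac339d280411040)) (.leaf 0x4004c0401c2001c1180000000b0401004)) (.sR 2160 (.sg 61 (.leaf 0x40064000001e000140e03f61d80401040) (.leaf 0x42068000001e001158f878e2580421040)) (.sR 2176 (.leaf 0x45054000101e01b120840ef9580451040) (.sg 61 (.sR 2208 (.sR 2192 (.leaf 0x3c078000141e000168d4d860a803c1040) (.leaf 0x3f078000041e000168dcc068a803f1040)) (.sR 2224 (.leaf 0x420700000c1e000158fc5278b80421040) (.leaf 0x40060000181e000138a44a6a880401040))) (.sR 2208 (.sR 2192 (.leaf 0x3c078000141e001168d4d860a803c1040) (.leaf 0x3e078000041e001168dcc1550803e1040)) (.sR 2224 (.leaf 0x430740000c1e001168e4a4a5c80431040)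 (.leaf 0x3f060000181e001138a4596d1803f1040)))))))) (.sR 2144 (.leaf 0x40050000401e01a1180000000b0401004) (.sr 2112 (.sR 2192 (.sR 2160 (.sg 63 (.leaf 0x3d0680400020012160e0b89ce803d1040) (.leaf 0x3c0680400020013160e0b8bb3803c1040)) (.sR 2176 (.leaf 0x3e05c000101e007130ac5f69b803e1040) (.leaf 0x3c078000141e007168d4d860a803c1040))) (.sR 2208 (.leaf 0x3f078000041e007168dcc068a803f1040) (.sR 2224 (.sg 63 (.leaf 0x3c0740000c1e012168e4aef53803c1040) (.leaf 0x3b0740000c1e013168e4aef8a803b1040)) (.leaf 0x3f060000181e007138a4596d1803f1040)))) (.sR 2176 (.sR 2160 (.sg 63 (.leaf 0x4106c000001e009160e0b4a9a80411040) (.leaf 0x4106c000001e014160e0b4a9a80411040)) (.leaf 0x4005c000101e00a130ac436f080401040)) (.sR 2192 (.leaf 0x40078000141e00a168d4d574680401040) (.sR 2224 (.sg 63 (.sR 2208 (.leaf 0x3e078000041e009168dcc1550803e1040) (.leaf 0x410740000c1e009168e4a998180411040)) (.sR 2208 (.leaf 0x3d078000041e014168dcc1e6a803d1040) (.leaf 3))) (.leaf 0x42060000181e00a138a42e13280421040))))))))))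 (.sR 2016 (.sR 1952 (.leaf 0x47048040241e0061080000000b0461044) (.sR 1984 (.leaf 0x46448040281e0061080000000ac455044) (.leaf 0x46c4c0002c1e0061100000000b845d044))) (.sR 2048 (.leaf 0x4604c000301e0061100000000b8455044) (.sR 2080 (.leaf 0x4584c000341e0061100000000b444d044) (.sg 62 (.sR 2096 (.leaf 0x4504c0003c1e0221100000000b4449044) (.sr 2240 (.sR 2128 (.sg 61 (.sR 2112 (.leaf 0x40068000201e005158e4ad84580401040) (.leaf 0x43058000081e005128ac1ba5780431040)) (.sR 2112 (.leaf 0x3e0640402020015158e4af32d803e1040) (.leaf 0x420540400820015128ac2720680421040))) (.sR 2144 (.leaf 0x400500001c1e0201180000000b0401004) (.sg 61 (.sR 2176 (.sR 2160 (.sr 2208 (.leaf 0x3d06c000001e00b160e0b89ce803d1040) (.leaf 0x3d06c000001e00e160e0b89ce803d1040)) (.leaf 0x3f05c000101e005130ac513a9803f1040)) (.sR 2192 (.leaf 0x3f078000141e005168d4d6b3a803f1040) (.sR 2224 (.sr 2208 (.sR 2208 (.leaf 0x3c078000041e00b168dcc2258803c1040) (.leaf 0x3d0740000c1e00b168e4aea00803d1040)) (.sR 2208 (.leaf 0x3d078000041e00e168dcc1e6a803d1040)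 (.leaf 0x3e0740000c1e00e168e4adf1a803e1040))) (.leaf 0x43060000181e005138a4212ac80431040)))) (.sR 2176 (.sR 2160 (.sr 2208 (.leaf 0x3c06c000001e00c160e0b8bb3803c1040) (.leaf 0x3d06c000001e017160e0b89ce803d1040)) (.leaf 0x3e05c000101e00d130ac5f69b803e1040)) (.sR 2192 (.leaf 0x3e078000141e00d168d4d794e803e1040) (.sR 2224 (.sr 2208 (.sR 2208 (.leaf 0x3b078000041e00c168dcc21b4803b1040) (.leaf 0x3c0740000c1e00c168e4aef53803c1040)) (.sR 2208 (.leaf 0x3c078000041e017168dcc2258803c1040) (.leaf 3))) (.leaf 0x41060000181e00d138a43be8080411040))))))) (.sR 2224 (.sg 61 (.sR 2144 (.sR 2112 (.leaf 0x3e068000201e008158e4af32d803e1040) (.sR 2128 (.leaf 0x42068000081e008158ec9770580421040) (.leaf 0x400500001c1e0271180000000b0401004))) (.sR 2176 (.sR 2160 (.sr 2272 (.leaf 0x3f06c000001e00f160e0b762f803f1040) (.leaf 0x4006c000001e029160e0b638f80401040)) (.leaf 0x3f05c000101e008130ac513a9803f1040)) (.sR 2192 (.leaf 0x3f078000141e008168d4d6b3a803f1040) (.sr 2272 (.sR 2208 (.leaf 0x3e078000041e00f168dcc1550803e1040)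 (.leaf 0x410740000c1e00f168e4a998180411040)) (.leaf 3))))) (.sR 2144 (.sR 2112 (.leaf 0x3d068000201e010158e4af81f803d1040) (.sR 2128 (.leaf 0x3f068000081e010158ec9c34a803f1040) (.leaf 0x400500001c1e0281180000000b0401004))) (.sR 2160 (.sr 2272 (.leaf 0x3e0680400020025160e0b82cc803e1040) (.leaf 3)) (.sR 2176 (.leaf 0x3e05c000101e010130ac5f69b803e1040) (.leaf 3))))) (.leaf 3)))) (.sR 2112 (.leaf 0x40050000381e0231180000000b0401004) (.sR 2208 (.sR 2192 (.sr 2240 (.sR 2144 (.sR 2128 (.sg 63 (.leaf 0x400640400820016158ec9b03080401040) (.leaf 0x3e064040082001f158ec9d049803e1040)) (.leaf 0x400500001c1e0211180000000b0401004)) (.sR 2160 (.sg 63 (.sr 2208 (.leaf 0x3c06c000001e01d160e0b8bb3803c1040) (.leaf 0x3c0680400020024160e0b8bb3803c1040)) (.leaf 3)) (.sR 2176 (.leaf 0x4105c000101e01e130ac362ab80411040) (.sg 63 (.leaf 0x3d078000141e016168d4d820a803d1040) (.leaf 3))))) (.sR 2128 (.sg 63 (.leaf 0x3e068000081e026158ec9d049803e1040) (.leaf 3)) (.leaf 3))) (.leaf 3)) (.leaf 3))))))))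
theorem k149 : ChunkP 5 5 2048 2304 60 64 1920 2240 :=
  chkD_sound (Q := 40) (C := [c1068.c, c1070.c, c815.c, c817.c, c866.c, c1230.c, c1286.c, c819.c, c1471.c, c1071.c, c1072.c, c1176.c, c1177.c, c1231.c, c1346.c, c1417.c, c1472.c, c816.c, c818.c, c820.c, c1073.c, c1232.c, c1233.c, c1347.c, c821.c, c868.c, c869.c, c1069.c, c1075.c, c1178.c, c1234.c, c1235.c, c1236.c, c1237.c, c1285.c, c1288.c, c1348.c, c1418.c, c1473.c, c1475.c, c1476.c, c1566.c])
    (T := [f_w536_540_4_39_42d, f_w548_552_4_35_40d, f_w528_532_4_40_45d, f_w552_556_4_36_39d, f_w540_544_4_36_45d, f_w544_548_4_36_42d, f_w556_560_4_33_42d, f_w532_536_0_39_42d, f_w524_528_4_40_45d, f_w480_488_4_40_40d, f_w488_496_4_30_40d, f_w496_504_4_30_40d, f_w504_512_4_35_45d, f_w512_520_4_30_40d, f_w520_528_0_30_40d, f_w520_524_4_35_45d, f_w528_536_0_20_30d]) (t := t149)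
    (all_cons p1068 (all_cons p1070 (all_cons p815 (all_cons p817 (all_cons p866 (all_cons p1230 (all_cons p1286 (all_cons p819 (all_cons p1471 (all_cons p1071 (all_cons p1072 (all_cons p1176 (all_cons p1177 (all_cons p1231 (all_cons p1346 (all_cons p1417 (all_cons p1472 (all_cons p816 (all_cons p818 (all_cons p820 (all_cons p1073 (all_cons p1232 (all_cons p1233 (all_cons p1347 (all_cons p821 (all_cons p868 (all_cons p869 (all_cons p1069 (all_cons p1075 (all_cons p1178 (all_cons p1234 (all_cons p1235 (all_cons p1236 (all_cons p1237 (all_cons p1285 (all_cons p1288 (all_cons p1348 (all_cons p1418 (all_cons p1473 (all_cons p1475 (all_cons p1476 (all_cons p1566 all_nil)))))))))))))))))))))))))))))))))))))))))) (all_cons f_w536_540_4_39_42d_p (all_cons f_w548_552_4_35_40d_p (all_cons f_w528_532_4_40_45d_p (all_cons f_w552_556_4_36_39d_p (all_cons f_w540_544_4_36_45d_p (all_cons f_w544_548_4_36_42d_p (all_cons f_w556_560_4_33_42d_p (all_cons f_w532_536_0_39_42d_p (all_cons f_w524_528_4_40_45d_p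 (all_cons f_w480_488_4_40_40d_p (all_cons f_w488_496_4_30_40d_p (all_cons f_w496_504_4_30_40d_p (all_cons f_w504_512_4_35_45d_p (all_cons f_w512_520_4_30_40d_p (all_cons f_w520_528_0_30_40d_p (all_cons f_w520_524_4_35_45d_p (all_cons f_w528_536_0_20_30d_p all_nil)))))))))))))))))
    (by decide +kernel)
def t150 : Tree := (.leaf 0x44c40040001e0000f80000000b8441044)
theorem k150 : ChunkP 5 5 2304 2432 56 60 1920 1952 :=
  chkD_sound (Q := 40) (C := [c1766.c])
    (T := [f_w480_488_4_40_40d]) (t := t150)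
    (all_cons p1766 all_nil) (all_cons f_w480_488_4_40_40d_p all_nil)
    (by decide +kernel)
def t151 : Tree := (.sR 1984 (.leaf 0x46448040001e0001080000000b0455044) (.leaf 0x45848000041e0001080000000b844d044))
theorem k151 : ChunkP 5 5 2304 2432 56 58 1952 2016 :=
  chkD_sound (Q := 40) (C := [c1765.c])
    (T := [f_w488_496_4_30_40d, f_w496_504_4_30_40d]) (t := t151)
    (all_cons p1765 all_nil) (all_cons f_w488_496_4_30_40d_p (all_cons f_w496_504_4_30_40d_p all_nil))
    (by decide +kernel)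
def t152 : Tree := (.leaf 0x45048000001e0001080000000b8449044)
theorem k152 : ChunkP 5 5 2304 2432 56 58 2016 2048 :=
  chkD_sound (Q := 40) (C := [c1765.c])
    (T := [f_w504_512_4_35_45d]) (t := t152)
    (all_cons p1765 all_nil) (all_cons f_w504_512_4_35_45d_p all_nil)
    (by decide +kernel)
def t153 : Tree := (.sR 2064 (.leaf 0x4584c000001e0001100000000b4451044) (.leaf 0x4544c040041e0001100000000b844d044))
theorem k153 : ChunkP 5 5 2304 2432 56 58 2048 2080 :=
  chkD_sound (Q := 40) (C := [c1765.c])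
    (T := [f_w512_516_4_35_45d, f_w516_520_4_40_45d]) (t := t153)
    (all_cons p1765 all_nil) (all_cons f_w512_516_4_35_45d_p (all_cons f_w516_520_4_40_45d_p all_nil))
    (by decide +kernel)
def t154 : Tree := (.leaf 0x4504c000001e0001100000000b4449044)
theorem k154 : ChunkP 5 5 2304 2432 56 58 2080 2096 :=
  chkD_sound (Q := 40) (C := [c1765.c])
    (T := [f_w520_524_4_35_45d]) (t := t154)
    (all_cons p1765 all_nil) (all_cons f_w520_524_4_35_45d_p all_nil)
    (by decide +kernel)
def t155 : Tree := (.sg 57 (.sr 2336 (.sR 2144 (.sR 2112 (.leaf 0x3f0640002c1e0001490459c52803f1040) (.sR 2128 (.leaf 0x41058000181e000128ac339d280411040) (.leaf 0x400500001c1e00f1180000000b0401004))) (.sR 2176 (.sR 2160 (.leaf 0x43064000201e000140e02bc3780431040) (.leaf 0x4305c000341e000130ac1dfb880431040)) (.sR 2192 (.leaf 0x43070000241e000158fc5ee1980431040) (.sR 2200 (.sr 2320 (.leaf 0x4305c000001e004130a01f5fd80431040) (.leaf 0x4305c000001e006130a01f5fd80431040)) (.sR 2208 (.leaf 0x42074000281e000160f47917480421040)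 (.sr 2320 (.sR 2224 (.sR 2216 (.leaf 0x4505c000081e00d1388c99c2980451080) (.sr 2312 (.leaf 0x42070000141e00b160f86d6e380421040) (.leaf 0x43070000141e013160f869e5e80431040))) (.sR 2232 (.leaf 0x3e078000101e004168e89d535803e1040) (.leaf 0x3f0740000c1e004168ec9494c803f1040))) (.sR 2224 (.sR 2216 (.leaf 0x4405c000081e0161388caf00480441080) (.sr 2328 (.leaf 0x42070000141e015160f86d6e380421040) (.leaf 0x43074000141e019168e89b81080431040))) (.sR 2232 (.leaf 0x3e078000101e006168e89d535803e1040) (.leaf 0x400740000c1e006168ec92c2c80401040))))))))) (.sR 2144 (.sR 2112 (.leaf 0x400680002c1e001158e4ad84580401040) (.sR 2128 (.leaf 0x40058000181e001128ac40dac80401040) (.leaf 0x400500001c1e0201180000000b0401004))) (.sR 2176 (.sR 2160 (.leaf 0x42064000201e001140e0322e480421040) (.leaf 0x42070000301e001158fc6cc8d80421040)) (.sR 2192 (.leaf 0x42074000241e001160ec8e55780421040) (.sR 2200 (.sr 2352 (.leaf 0x4405c000001e008130a01358680441040) (.sr 2360 (.leaf 0x4106c000001e027160f4824be80411040)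 (.leaf 0x4106c000001e02b160f4824be80411040))) (.sR 2208 (.leaf 0x41078000281e001168e0b32cd80411040) (.sr 2352 (.sR 2224 (.sR 2216 (.leaf 0x44060000081e01d14094b2ad180441080) (.sr 2344 (.leaf 0x45064000041e01a140949f85780451080) (.leaf 0x44060000041e02213888b154480441080))) (.sR 2232 (.leaf 0x3f078000101e008168e89c0c1803f1040) (.leaf 0x410740000c1e008168ec908b280411040))) (.sR 2224 (.sR 2216 (.leaf 0x43064000081e0281489cd3f0a80431080) (.sr 2360 (.leaf 0x44064000041e02514094b30b680441080) (.leaf 0x44064000041e02a14094b30b680441080))) (.sR 2232 (.leaf 0x41078000101e009168e8984c380411040) (.leaf 0x440700000c1e009160fc5b67d80441040)))))))))) (.sR 2112 (.leaf 0x440580002c1e011128b01301c80441040) (.sr 2336 (.sR 2160 (.sR 2128 (.leaf 0x40058000181e003128ac40dac80401040) (.sR 2144 (.leaf 0x400500001c1e0101180000000b0401004) (.leaf 0x42064000201e003140e0322e480421040))) (.sR 2176 (.leaf 0x42070000301e003158fc6cc8d80421040) (.sR 2192 (.leaf 0x42078000241e003168d4d1c1d80421040) (.sR 2200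 (.sr 2320 (.leaf 0x4405c000001e005130a01358680441040) (.leaf 0x4405c000001e007130a01358680441040)) (.sR 2208 (.leaf 0x41078000281e003168e0b32cd80411040) (.sr 2320 (.sR 2224 (.sR 2216 (.leaf 0x4405c000081e00e1388caf00480441080) (.sr 2312 (.leaf 0x43070000141e00c160f869e5e80431040) (.leaf 0x45060000041e012138889bb2380451080))) (.sR 2232 (.leaf 0x3e078000101e005168e89d535803e1040) (.leaf 0x3f0740000c1e005168ec9494c803f1040))) (.sR 2224 (.sR 2216 (.leaf 0x44064000081e0171489cc30ce80441080) (.sr 2328 (.leaf 0x45060000041e014138889bb2380451080) (.leaf 0x45060000041e018138889bb2380451080))) (.sR 2232 (.leaf 0x3e078000101e007168e89d535803e1040) (.leaf 0x3f0740000c1e007168ec9494c803f1040))))))))) (.sR 2160 (.sR 2128 (.leaf 0x41068000181e002158ec996cd80411040) (.sR 2144 (.leaf 0x400500001c1e0211180000000b0401004) (.leaf 0x41064000201e002140e038bd080411040))) (.sR 2176 (.leaf 0x40074000301e002160e8a322c80401040) (.sR 2192 (.leaf 0x40078000241e002168d4d574680401040) (.sR 2208 (.sR 2200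 (.sr 2352 (.sr 2344 (.leaf 0x3f06c000001e01c160f48675b803f1040) (.leaf 0x4006c000001e024160f48491d80401040)) (.leaf 0x4006c000001e00a160f48491d80401040)) (.leaf 0x3f078000281e002168e0b64ea803f1040)) (.sR 2224 (.sr 2352 (.sR 2216 (.leaf 0x43064000081e01e1489cd3f0a80431080) (.sr 2344 (.leaf 0x45060000041e01b138889bb2380451080) (.leaf 0x45064000041e023140949f85780451080))) (.sR 2216 (.leaf 0x42064000081e0291489ce4a8f80421080) (.sr 2360 (.leaf 0x44064000041e02614094b30b680441080) (.leaf 0x40074000141e02c168e8a298080401040)))) (.sR 2232 (.leaf 0x42078000101e002168e895d1680421040) (.sr 2352 (.leaf 0x410740000c1e01f168ec908b280411040) (.leaf 0x3e0740000c1e00a168ec9601c803e1040)))))))))))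
theorem k155 : ChunkP 5 5 2304 2368 56 58 2096 2240 :=
  chkD_sound (Q := 40) (C := [c1657.c, c1910.c, c1911.c, c1658.c, c1632.c, c1633.c, c1848.c, c1849.c, c1883.c, c1951.c, c1952.c, c1617.c, c1618.c, c1628.c, c1629.c, c1661.c, c1662.c, c1713.c, c1822.c, c1825.c, c1831.c, c1834.c, c1844.c, c1845.c, c1854.c, c1857.c, c1865.c, c1866.c, c1869.c, c1879.c, c1880.c, c1884.c, c1914.c, c1915.c, c1923.c, c1924.c, c1927.c, c1932.c, c1933.c, c1936.c, c1947.c, c1948.c, c1959.c, c1961.c, c1962.c])
    (T := [f_w548_550_4_42_45d, f_w554_556_8_39_42d, f_w552_554_8_39_45d, f_w558_560_4_39_42d, f_w556_558_4_39_42d, f_w554_556_4_42_42d, f_w528_532_4_40_45d, f_w532_536_0_39_42d, f_w536_540_4_39_42d, f_w544_548_4_36_42d, f_w550_552_4_39_42d, f_w524_528_4_40_45d, f_w540_544_4_39_42d, f_w540_544_4_36_45d]) (t := t155)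
    (all_cons p1657 (all_cons p1910 (all_cons p1911 (all_cons p1658 (all_cons p1632 (all_cons p1633 (all_cons p1848 (all_cons p1849 (all_cons p1883 (all_cons p1951 (all_cons p1952 (all_cons p1617 (all_cons p1618 (all_cons p1628 (all_cons p1629 (all_cons p1661 (all_cons p1662 (all_cons p1713 (all_cons p1822 (all_cons p1825 (all_cons p1831 (all_cons p1834 (all_cons p1844 (all_cons p1845 (all_cons p1854 (all_cons p1857 (all_cons p1865 (all_cons p1866 (all_cons p1869 (all_cons p1879 (all_cons p1880 (all_cons p1884 (all_cons p1914 (all_cons p1915 (all_cons p1923 (all_cons p1924 (all_cons p1927 (all_cons p1932 (all_cons p1933 (all_cons p1936 (all_cons p1947 (all_cons p1948 (all_cons p1959 (all_cons p1961 (all_cons p1962 all_nil))))))))))))))))))))))))))))))))))))))))))))) (all_cons f_w548_550_4_42_45d_p (all_cons f_w554_556_8_39_42d_p (all_cons f_w552_554_8_39_45d_p (all_cons f_w558_560_4_39_42d_p (all_cons f_w556_558_4_39_42d_p (all_cons f_w554_556_4_42_42d_p (all_cons f_w528_532_4_40_45d_p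 (all_cons f_w532_536_0_39_42d_p (all_cons f_w536_540_4_39_42d_p (all_cons f_w544_548_4_36_42d_p (all_cons f_w550_552_4_39_42d_p (all_cons f_w524_528_4_40_45d_p (all_cons f_w540_544_4_39_42d_p (all_cons f_w540_544_4_36_45d_p all_nil))))))))))))))
    (by decide +kernel)
def t156 : Tree := (.sg 57 (.sR 2112 (.leaf 0x45050000301e0101188c02eaa80451040) (.sr 2400 (.sR 2160 (.sR 2128 (.leaf 0x40058000081e001128ac40dac80401040) (.sR 2144 (.leaf 0x400500000c1e00e1180000000b0401004) (.leaf 0x42064000101e001140e0322e480421040))) (.sR 2176 (.leaf 0x42070000181e001158fc6cc8d80421040) (.sR 2192 (.leaf 0x430740001c1e001160ec8b96480431040) (.sR 2208 (.sR 2200 (.sr 2384 (.leaf 0x4106c000001e006160f4824be80411040) (.leaf 0x4106c000001e007160f4824be80411040)) (.leaf 0x40078000201e001168e0b4f1680401040)) (.sR 2224 (.sr 2384 (.sR 2216 (.leaf 0x42064000281e00b1489ce4a8f80421080) (.sr 2376 (.leaf 0x44064000401e00914094b30b680441080) (.leaf 0x40074000041e012168e8a298080401040))) (.sR 2216 (.leaf 0x42064000281e0151489ce4a8f80421080)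 (.sr 2392 (.leaf 0x41074000041e014168e8a0a4280411040) (.leaf 0x40074000041e016168e8a298080401040)))) (.sR 2232 (.leaf 0x43078000141e001168e892ef680431040) (.sr 2384 (.leaf 0x3f0740002c1e006168ec9494c803f1040) (.leaf 0x3f0740002c1e007168ec9494c803f1040)))))))) (.sR 2144 (.sR 2128 (.leaf 0x44064000081e004150fc6025780441040) (.leaf 0x400500000c1e0181180000000b4401004)) (.sR 2160 (.leaf 0x45054000101e0041208c0503e80451040) (.sR 2176 (.leaf 0x4105c0003c1e004130ac362ab80411040) (.sR 2200 (.sr 2416 (.sR 2184 (.leaf 0x3f06c000341e000160ec94345803f1040) (.sR 2192 (.leaf 0x41060000381e000148e83d07680411040) (.leaf 0x3f06c000001e000160f48675b803f1040))) (.sR 2184 (.leaf 0x3f06c000341e003160ec94345803f1040) (.sR 2192 (.leaf 0x42064000381e003160f086b7880421040) (.leaf 0x3f06c000001e003160f48675b803f1040)))) (.sR 2208 (.leaf 0x41078000201e004168e0b32cd80411040) (.sr 2416 (.sR 2224 (.sR 2216 (.leaf 0x42070000241e000160f87307680421040) (.leaf 0x43070000041e000160f869e5e80431040)) (.sR 2232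 (.leaf 0x3e078000141e000168e89d535803e1040) (.leaf 0x3e0740002c1e000168ec9601c803e1040))) (.sR 2224 (.sR 2216 (.leaf 0x43074000241e003168e4a4a5c80431040) (.leaf 0x43074000041e003168e89b81080431040)) (.sR 2232 (.leaf 0x3e078000141e003168e89d535803e1040) (.leaf 3))))))))))) (.sR 2112 (.leaf 0x43064000301e011149044bd4380431040) (.sr 2400 (.sR 2160 (.sR 2128 (.leaf 0x40068000081e002158ec9b03080401040) (.sR 2144 (.leaf 0x400500000c1e00f1180000000b0401004) (.leaf 0x42064000101e002140e0322e480421040))) (.sR 2176 (.leaf 0x42074000181e002160e89f4bb80421040) (.sR 2192 (.leaf 0x420780001c1e002168d4d1c1d80421040) (.sR 2208 (.sR 2200 (.sr 2384 (.leaf 0x4006c000001e00d160f48491d80401040) (.leaf 0x3e06c000001e008160f487f73803e1040)) (.leaf 0x40078000201e002168e0b4f1680401040)) (.sR 2224 (.sr 2384 (.sR 2216 (.leaf 0x42064000281e00c1489ce4a8f80421080) (.sr 2376 (.leaf 0x40074000041e00a168e8a298080401040) (.leaf 0x41074000041e013168e8a0a4280411040))) (.sR 2216 (.leaf 0x43074000241e008168e4a4a5c80431040)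 (.leaf 3))) (.sR 2232 (.leaf 0x42078000141e002168e895d1680421040) (.leaf 3))))))) (.sR 2160 (.sR 2128 (.leaf 0x3f068000081e005158ec9c34a803f1040) (.sR 2144 (.leaf 0x400500000c1e0191180000000b4401004) (.leaf 0x43064000101e005140e02bc3780431040))) (.sR 2192 (.sR 2176 (.leaf 0x43074000181e005160e89cc3080431040) (.leaf 0x420740001c1e005160ec8e55780421040)) (.sR 2208 (.sR 2200 (.sr 2416 (.leaf 0x3e06c000001e017160f487f73803e1040) (.leaf 3)) (.leaf 3)) (.leaf 3)))))))
theorem k156 : ChunkP 5 5 2368 2432 56 58 2096 2240 :=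
  chkD_sound (Q := 40) (C := [c2135.c, c2015.c, c2016.c, c2206.c, c2162.c, c2163.c, c1987.c, c2102.c, c2103.c, c1967.c, c1971.c, c1983.c, c1984.c, c1988.c, c2019.c, c2020.c, c2065.c, c2066.c, c2078.c, c2079.c, c2086.c, c2098.c, c2110.c, c2136.c, c2166.c, c2167.c])
    (T := [f_w548_550_4_42_45d, f_w554_556_4_42_42d, f_w528_532_4_40_45d, f_w532_536_0_39_42d, f_w536_540_4_39_42d, f_w556_558_4_39_42d, f_w540_544_4_39_42d, f_w544_548_4_36_42d, f_w550_552_4_39_42d, f_w552_554_4_42_42d, f_w552_554_8_39_45d, f_w558_560_4_39_42d, f_w524_528_4_40_45d, f_w544_546_4_42_45d, f_w546_548_4_42_45d, f_w540_544_4_36_45d, f_w554_556_8_39_42d]) (t := t156)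
    (all_cons p2135 (all_cons p2015 (all_cons p2016 (all_cons p2206 (all_cons p2162 (all_cons p2163 (all_cons p1987 (all_cons p2102 (all_cons p2103 (all_cons p1967 (all_cons p1971 (all_cons p1983 (all_cons p1984 (all_cons p1988 (all_cons p2019 (all_cons p2020 (all_cons p2065 (all_cons p2066 (all_cons p2078 (all_cons p2079 (all_cons p2086 (all_cons p2098 (all_cons p2110 (all_cons p2136 (all_cons p2166 (all_cons p2167 all_nil)))))))))))))))))))))))))) (all_cons f_w548_550_4_42_45d_p (all_cons f_w554_556_4_42_42d_p (all_cons f_w528_532_4_40_45d_p (all_cons f_w532_536_0_39_42d_p (all_cons f_w536_540_4_39_42d_p (all_cons f_w556_558_4_39_42d_p (all_cons f_w540_544_4_39_42d_p (all_cons f_w544_548_4_36_42d_p (all_cons f_w550_552_4_39_42d_p (all_cons f_w552_554_4_42_42d_p (all_cons f_w552_554_8_39_45d_p (all_cons f_w558_560_4_39_42d_p (all_cons f_w524_528_4_40_45d_p (all_cons f_w544_546_4_42_45d_p (all_cons f_w546_548_4_42_45d_p (all_cons f_w540_544_4_36_45d_p (all_cons f_w554_556_8_39_42d_p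 all_nil)))))))))))))))))
    (by decide +kernel)
def t157 : Tree := (.sR 2016 (.sR 1984 (.leaf 0x46448040301e0001080000000ac455044) (.leaf 0x45848000341e0001080000000ac44d044)) (.sR 2048 (.leaf 0x4604c000381e0001100000000b8455044) (.sR 2080 (.sR 2064 (.leaf 0x4584c0003c1e0001100000000b4451044) (.leaf 0x4544c040401e0001100000000b844d044)) (.sR 2096 (.leaf 0x4504c000441e0001100000000b4449044) (.sr 2368 (.sg 59 (.sR 2128 (.sR 2112 (.leaf 0x430680000c1e003158e4a80ba80431040) (.leaf 0x44058000101e003128ac1222b80441040)) (.sR 2160 (.sr 2336 (.sR 2144 (.leaf 0x40050000001e00d1180000000b0401004) (.leaf 0x42064000041e001140e0322e480421040)) (.sR 2144 (.leaf 0x40050000001e01c1180000000b0401004) (.leaf 0x4206c000041e005160e0b2b1280421040))) (.sR 2176 (.leaf 0x4305c0001c1e003130ac1dfb880431040) (.sr 2336 (.sR 2192 (.leaf 0x40078000141e001168d4d574680401040) (.sR 2200 (.sr 2320 (.sr 2312 (.leaf 0x4006c000081e00b160f48491d80401040) (.leaf 0x400680400820011160f48491d80401040)) (.sr 2328 (.leaf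 0x3f06c000081e013160f48675b803f1040) (.leaf 0x3f06c000081e018160f48675b803f1040))) (.sR 2208 (.leaf 0x41078000241e001168e0b32cd80411040) (.sr 2320 (.sR 2224 (.sR 2216 (.leaf 0x44060000201e00c14094b2ad180441080) (.sr 2312 (.sr 2308 (.leaf 0x43074000281e00a168e89b81080431040) (.leaf 0x43070000281e00f160f869e5e80431040)) (.leaf 0x46060000181e010138888649680461080))) (.sR 2232 (.leaf 0x3f0740402c20007168e89c0c1803f1040) (.leaf 0x400700404c20007168ec92c2c80401040))) (.sR 2224 (.sR 2216 (.leaf 0x43064000201e0141489cd3f0a80431080) (.sr 2328 (.sr 2324 (.leaf 0x45068000181e0121489cb028080451080) (.leaf 0x44068000181e0161489cc17ce80441080)) (.leaf 0x46060000181e017138888649680461080))) (.sR 2232 (.leaf 0x3e0780002c1e015168e89d535803e1040) (.leaf 3))))))) (.sR 2192 (.leaf 0x3e078000141e005168d4d794e803e1040) (.sR 2224 (.sR 2208 (.sR 2200 (.sr 2352 (.leaf 0x3f06c000081e01a160f48675b803f1040) (.leaf 0x3f06c000081e01d160f48675b803f1040)) (.leaf 0x3e078000241e005168e0b748c803e1040)) (.sR 2216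 (.sr 2352 (.leaf 0x43064000201e0191489cd3f0a80431080) (.leaf 3)) (.leaf 3))) (.leaf 3))))))) (.sR 2144 (.sR 2112 (.leaf 0x3f0680000c1e004158e4ae8b1803f1040) (.sR 2128 (.leaf 0x42058000101e004128ac2720680421040) (.leaf 0x40050000001e00e1180000000b4401004))) (.sR 2176 (.sR 2160 (.sr 2336 (.leaf 0x3f06c000041e002160e0b762f803f1040) (.leaf 0x4006c000041e01b160e0b638f80401040)) (.leaf 0x4005c0001c1e004130ac436f080401040)) (.sR 2208 (.sr 2336 (.sR 2192 (.leaf 0x3c078000141e002168d4d860a803c1040) (.leaf 0x40078000481e002168dcbf1aa80401040)) (.leaf 3)) (.leaf 3))))) (.sR 2192 (.sg 59 (.sR 2128 (.sR 2112 (.leaf 0x410680000c1e006158e4ac19b80411040) (.leaf 0x44058000101e006128ac1222b80441040)) (.sR 2160 (.sr 2400 (.sR 2144 (.leaf 0x40050000001e01e1180000000b0401004) (.leaf 0x43068000041e008158f875fb180431040)) (.sR 2144 (.leaf 0x40050000001e0211180000000b4401004) (.leaf 0x42064000041e020140e0322e480421040))) (.sR 2176 (.leaf 0x4305c0001c1e006130ac1dfb880431040) (.sr 2400 (.leaf 0x3f078000141e008168d4d6b3a803f1040)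 (.leaf 3))))) (.sR 2128 (.sR 2112 (.leaf 0x3f0680000c1e009158e4ae8b1803f1040) (.leaf 0x43058000101e009128ac1ba5780431040)) (.sR 2144 (.sr 2400 (.leaf 0x40050000001e01f1180000000b0401004) (.leaf 3)) (.leaf 3)))) (.leaf 3)))))))
theorem k157 : ChunkP 5 5 2304 2432 58 60 1952 2240 :=
  chkD_sound (Q := 40) (C := [c1767.c, c1659.c, c1660.c, c1714.c, c1715.c, c1912.c, c2067.c, c1634.c, c2017.c, c2068.c, c1610.c, c1619.c, c1630.c, c1663.c, c1718.c, c1815.c, c1823.c, c1826.c, c1828.c, c1835.c, c1846.c, c1850.c, c1851.c, c1855.c, c1858.c, c1881.c, c1885.c, c1913.c, c1916.c, c1953.c, c2021.c, c2022.c, c2164.c, c2168.c])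
    (T := [f_w532_536_0_39_42d, f_w536_540_4_39_42d, f_w548_550_4_42_45d, f_w524_528_4_40_45d, f_w528_532_4_40_45d, f_w544_548_4_36_42d, f_w554_556_8_39_42d, f_w540_544_4_36_45d, f_w552_554_8_39_45d, f_w550_552_4_39_42d, f_w554_556_4_42_42d, f_w556_558_4_39_42d, f_w488_496_4_30_40d, f_w496_504_4_30_40d, f_w504_512_4_35_45d, f_w512_516_4_35_45d, f_w516_520_4_40_45d, f_w520_524_4_35_45d, f_w548_552_4_35_40d, f_w558_560_4_39_42d]) (t := t157)
    (all_cons p1767 (all_cons p1659 (all_cons p1660 (all_cons p1714 (all_cons p1715 (all_cons p1912 (all_cons p2067 (all_cons p1634 (all_cons p2017 (all_cons p2068 (all_cons p1610 (all_cons p1619 (all_cons p1630 (all_cons p1663 (all_cons p1718 (all_cons p1815 (all_cons p1823 (all_cons p1826 (all_cons p1828 (all_cons p1835 (all_cons p1846 (all_cons p1850 (all_cons p1851 (all_cons p1855 (all_cons p1858 (all_cons p1881 (all_cons p1885 (all_cons p1913 (all_cons p1916 (all_cons p1953 (all_cons p2021 (all_cons p2022 (all_cons p2164 (all_cons p2168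 all_nil)))))))))))))))))))))))))))))))))) (all_cons f_w532_536_0_39_42d_p (all_cons f_w536_540_4_39_42d_p (all_cons f_w548_550_4_42_45d_p (all_cons f_w524_528_4_40_45d_p (all_cons f_w528_532_4_40_45d_p (all_cons f_w544_548_4_36_42d_p (all_cons f_w554_556_8_39_42d_p (all_cons f_w540_544_4_36_45d_p (all_cons f_w552_554_8_39_45d_p (all_cons f_w550_552_4_39_42d_p (all_cons f_w554_556_4_42_42d_p (all_cons f_w556_558_4_39_42d_p (all_cons f_w488_496_4_30_40d_p (all_cons f_w496_504_4_30_40d_p (all_cons f_w504_512_4_35_45d_p (all_cons f_w512_516_4_35_45d_p (all_cons f_w516_520_4_40_45d_p (all_cons f_w520_524_4_35_45d_p (all_cons f_w548_552_4_35_40d_p (all_cons f_w558_560_4_39_42d_p all_nil))))))))))))))))))))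
    (by decide +kernel)
def t158 : Tree := (.sg 58 (.sR 1952 (.leaf 0x45c44040241e0021000000000b044d044) (.sR 2016 (.sR 1984 (.sR 1968 (.leaf 0x46448040281e0021080000000ac459044) (.leaf 0x45c480402c1e0021080000000ac455044)) (.sR 2000 (.leaf 0x46c4c040301e0021100000000b8465044) (.leaf 0x4684c040341e0021100000000b845d044))) (.sR 2048 (.sR 2032 (.leaf 0x4604c040381e0021100000000b8459044) (.leaf 0x44c480403c1e0021080000000b8449044)) (.sR 2224 (.sr 2496 (.sR 2080 (.sR 2064 (.leaf 0x4584c0001c1e0051100000000b4451044) (.leaf 0x4544c040141e0051100000000b444d044)) (.sR 2096 (.leaf 0x4504c000201e0051100000000b4449044) (.sg 57 (.sr 2464 (.sR 2128 (.sR 2112 (.leaf 0x3f068000041e000158e4ae8b1803f1040) (.leaf 0x43068000081e000158ec950ca80431040)) (.sR 2160 (.sR 2144 (.sR 2136 (.leaf 0x430680400c1e000149003ee4b80431040) (.leaf 0x4306c040101e0001510054e1780431040)) (.sR 2152 (.leaf 0x41068000181e000158f87b6d480411040) (.sr 2448 (.sr 2440 (.sr 2436 (.leaf 0x4605c000001e0131308c79e9180461080)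 (.leaf 0x46058000001e018128807e0d180461080)) (.sr 2444 (.leaf 0x46058000001e019128807e0d180461080) (.leaf 0x46058000001e01b128807e0d180461080))) (.leaf 0x46058000001e01c128807e0d180461080)))) (.sR 2176 (.leaf 0x4105c000401e000130ac362ab80411040) (.sR 2200 (.sR 2184 (.leaf 0x45058000441e00012894069a180451040) (.sr 2448 (.sR 2192 (.leaf 0x41064000481e008160f08936080411040) (.leaf 0x3f06c0004c1e008160f48675b803f1040)) (.sR 2192 (.leaf 0x40064000481e00a160f08b51180401040) (.leaf 0x3e06c0004c1e00a160f487f73803e1040)))) (.sR 2208 (.leaf 0x42078000541e000168e0b0fdb80421040) (.sR 2216 (.leaf 0x4505c000581e0151388c99c2980451080) (.leaf 3))))))) (.sR 2160 (.sR 2112 (.leaf 0x3e068000041e004158e4af32d803e1040) (.sR 2128 (.leaf 0x42068000081e004158ec9770580421040) (.sR 2144 (.sr 2480 (.sR 2136 (.leaf 0x3f0680400c1e00b1490050d4d803f1040) (.leaf 0x3f074040101e00b160dcc1e59803f1040)) (.sR 2136 (.leaf 0x400680400c1e00e149004c98980401040) (.leaf 0x40074040101e00e160dcc0c6c80401040))) (.sR 2152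 (.leaf 0x40068000181e004158f87d99a80401040) (.sr 2480 (.leaf 0x4505c000001e01e1308c8e41480451080) (.leaf 0x4505c000001e01f1308c8e41480451080)))))) (.sR 2176 (.leaf 0x4205c000401e004130ac299ae80421040) (.sR 2192 (.sR 2184 (.leaf 0x4306c000441e004160ec8b96480431040) (.leaf 3)) (.leaf 3))))) (.sR 2176 (.sr 2464 (.sR 2128 (.sR 2112 (.leaf 0x3d068000041e003158e4af81f803d1040) (.leaf 0x3f068000081e003158ec9c34a803f1040)) (.sR 2160 (.sR 2144 (.sR 2136 (.leaf 0x430680400c1e003149003ee4b80431040) (.leaf 0x42070040101e003158f47fb0280421040)) (.sR 2152 (.leaf 0x3e068000181e003158f880d22803e1040) (.sr 2448 (.sr 2440 (.leaf 0x4405c000001e0141308ca2cfe80441080) (.leaf 0x45060000001e01a1389895f8780451080)) (.leaf 0x46058000001e01d128807e0d180461080)))) (.leaf 0x44070000501e003158fc65fc080441040))) (.sR 2128 (.sR 2112 (.leaf 0x3e068000041e00d158e4af32d803e1040) (.leaf 0x40068000081e00d158ec9b03080401040)) (.sR 2144 (.sr 2480 (.sR 2136 (.leaf 0x3f0680400c1e00c1490050d4d803f1040) (.leaf 0x3f074040101e00c160dcc1e59803f1040))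 (.leaf 3)) (.leaf 3)))) (.leaf 3))))) (.sR 2080 (.sR 2064 (.leaf 0x4584c0001c1e0071100000000b4451044) (.leaf 0x4544c040141e0071100000000b444d044)) (.sR 2096 (.leaf 0x4504c000201e0071100000000b4449044) (.sR 2160 (.sg 57 (.sr 2528 (.sR 2112 (.leaf 0x40068000041e006158e4ad84580401040) (.sR 2128 (.leaf 0x42058000081e006128ac2720680421040) (.sR 2144 (.sr 2512 (.sR 2136 (.leaf 0x400680400c1e00f149004c98980401040) (.leaf 0x41074040101e00f160dcbf43880411040)) (.sR 2136 (.leaf 0x420680400c1e011149004399080421040) (.leaf 0x41070040101e011158f48210f80411040))) (.sR 2152 (.leaf 0x41068000181e006158f87b6d480411040) (.sr 2512 (.leaf 0x45060000001e0201389895f8780451080) (.leaf 3)))))) (.sR 2112 (.leaf 0x40068000041e012158e4ad84580401040) (.sR 2128 (.leaf 0x42058000081e012128ac2720680421040) (.leaf 3)))) (.sR 2128 (.sr 2528 (.sR 2112 (.leaf 0x3e068000041e010158e4af32d803e1040) (.leaf 0x40068000081e010158ec9b03080401040)) (.leaf 3)) (.leaf 3))) (.leaf 3))))) (.leaf 3))))) (.sR 1952 (.leaf 0x45c44040241e0011000000000ac44d044)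 (.sR 2144 (.sR 2016 (.sR 1984 (.sR 1968 (.leaf 0x46448040281e0011080000000ac459044) (.leaf 0x45c480402c1e0011080000000ac455044)) (.sR 2000 (.leaf 0x46c4c040301e0011100000000b8465044) (.leaf 0x4684c040341e0011100000000b845d044))) (.sR 2048 (.sR 2032 (.leaf 0x4604c040381e0011100000000b8459044) (.leaf 0x44c480403c1e0011080000000b8449044)) (.sR 2064 (.leaf 0x4584c0001c1e0011100000000b4451044) (.sR 2128 (.sr 2496 (.sR 2080 (.leaf 0x4544c040141e0091100000000b444d044) (.sR 2096 (.leaf 0x4504c000201e0091100000000b4449044) (.sg 59 (.sR 2112 (.leaf 0x44064000041e0171490447c8f80441040) (.sr 2464 (.leaf 0x3d068000081e016158ec9d772803d1040) (.leaf 3))) (.leaf 3)))) (.sR 2080 (.leaf 0x4544c040141e0211100000000b444d044) (.leaf 3))) (.leaf 3))))) (.leaf 3))))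
theorem k158 : ChunkP 5 5 2432 2560 56 60 1920 2240 :=
  chkD_sound (Q := 40) (C := [c2261.c, c2357.c, c2356.c, c2262.c, c2444.c, c2307.c, c2515.c, c2560.c, c2240.c, c2310.c, c2395.c, c2421.c, c2422.c, c2445.c, c2470.c, c2493.c, c2516.c, c2588.c, c2624.c, c2216.c, c2221.c, c2257.c, c2263.c, c2309.c, c2366.c, c2367.c, c2372.c, c2374.c, c2391.c, c2392.c, c2417.c, c2466.c, c2489.c, c2563.c])
    (T := [f_w538_540_8_42_42d, f_w524_528_4_40_45d, f_w528_532_4_40_45d, f_w532_534_4_42_42d, f_w534_536_4_42_42d, f_w516_520_4_40_45d, f_w536_538_4_42_45d, f_w512_516_4_35_45d, f_w520_524_4_35_45d, f_w480_488_4_40_40d, f_w488_492_4_40_45d, f_w492_496_4_40_45d, f_w496_500_4_40_45d, f_w500_504_4_40_45d, f_w504_508_4_40_45d, f_w508_512_4_40_45d, f_w540_544_4_36_45d, f_w544_546_4_42_45d, f_w546_548_4_42_45d, f_w548_550_4_42_45d, f_w540_544_4_39_42d, f_w550_552_4_39_42d, f_w552_554_8_39_45d]) (t := t158)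
    (all_cons p2261 (all_cons p2357 (all_cons p2356 (all_cons p2262 (all_cons p2444 (all_cons p2307 (all_cons p2515 (all_cons p2560 (all_cons p2240 (all_cons p2310 (all_cons p2395 (all_cons p2421 (all_cons p2422 (all_cons p2445 (all_cons p2470 (all_cons p2493 (all_cons p2516 (all_cons p2588 (all_cons p2624 (all_cons p2216 (all_cons p2221 (all_cons p2257 (all_cons p2263 (all_cons p2309 (all_cons p2366 (all_cons p2367 (all_cons p2372 (all_cons p2374 (all_cons p2391 (all_cons p2392 (all_cons p2417 (all_cons p2466 (all_cons p2489 (all_cons p2563 all_nil)))))))))))))))))))))))))))))))))) (all_cons f_w538_540_8_42_42d_p (all_cons f_w524_528_4_40_45d_p (all_cons f_w528_532_4_40_45d_p (all_cons f_w532_534_4_42_42d_p (all_cons f_w534_536_4_42_42d_p (all_cons f_w516_520_4_40_45d_p (all_cons f_w536_538_4_42_45d_p (all_cons f_w512_516_4_35_45d_p (all_cons f_w520_524_4_35_45d_p (all_cons f_w480_488_4_40_40d_p (all_cons f_w488_492_4_40_45d_p (all_cons f_w492_496_4_40_45d_p (all_cons f_w496_500_4_40_45d_p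 (all_cons f_w500_504_4_40_45d_p (all_cons f_w504_508_4_40_45d_p (all_cons f_w508_512_4_40_45d_p (all_cons f_w540_544_4_36_45d_p (all_cons f_w544_546_4_42_45d_p (all_cons f_w546_548_4_42_45d_p (all_cons f_w548_550_4_42_45d_p (all_cons f_w540_544_4_39_42d_p (all_cons f_w550_552_4_39_42d_p (all_cons f_w552_554_8_39_45d_p all_nil)))))))))))))))))))))))
    (by decide +kernel)
def t159 : Tree := (.sR 2176 (.sr 2432 (.sR 1952 (.leaf 0x44c40040001e0040f80000000b8441044) (.sR 1984 (.leaf 0x46448040041e0041080000000b8455044) (.sg 62 (.sR 2048 (.sR 2016 (.leaf 0x46c4c000101e0011100000000b845d044) (.leaf 0x4604c000081e0011100000000b8455044)) (.sR 2080 (.leaf 0x4584c000141e0011100000000b444d044) (.sR 2096 (.leaf 0x4504c000201e0011100000000b4449044) (.sR 2160 (.sr 2368 (.sg 61 (.sR 2128 (.sR 2112 (.leaf 0x3e0680000c1e003158e4af32d803e1040) (.leaf 0x40068000241e003158ec9b03080401040)) (.sR 2144 (.leaf 0x40050000281e0081180000000b4401004) (.sr 2336 (.leaf 0x3e06c0002c1e006160e0b82cc803e1040)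 (.leaf 3)))) (.sR 2112 (.leaf 0x3d0680000c1e007158e4af81f803d1040) (.leaf 3))) (.sR 2112 (.sg 61 (.leaf 0x3e0680000c1e009158e4af32d803e1040) (.leaf 3)) (.leaf 3))) (.leaf 3))))) (.sR 2048 (.sR 2016 (.leaf 0x46c4c000101e0021100000000b845d044) (.leaf 0x4604c000081e0021100000000b8455044)) (.sR 2080 (.leaf 0x4584c000141e0021100000000b444d044) (.leaf 3)))))) (.sR 2048 (.sg 62 (.sR 1984 (.sR 1952 (.leaf 0x47048040001e0001080000000b8461044) (.leaf 0x45044040041e0001000000000b0449044)) (.sR 2016 (.sR 2000 (.leaf 0x46c4c040181e0001100000000b8465044) (.leaf 0x4684c0401c1e0001100000000b845d044)) (.leaf 0x45048000081e0001080000000b8449044))) (.sR 1952 (.leaf 0x4704c000001c0051080000000b4461044) (.sR 1984 (.leaf 0x4644c000041c0051080000000ac455044) (.leaf 3)))) (.leaf 3))) (.leaf 3))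
theorem k159 : ChunkP 5 5 2304 2560 60 64 1920 2240 :=
  chkD_sound (Q := 40) (C := [c2358.c, c1768.c, c1770.c, c1716.c, c1769.c, c2360.c, c1661.c, c1717.c, c1719.c, c2069.c])
    (T := [f_w480_488_4_40_40d, f_w488_496_4_30_40d, f_w504_512_4_35_45d, f_w524_528_4_40_45d, f_w496_504_4_30_40d, f_w512_520_4_30_40d, f_w496_500_4_40_45d, f_w500_504_4_40_45d, f_w520_524_4_35_45d, f_w528_532_4_40_45d, f_w532_536_0_39_42d, f_w536_540_4_39_42d]) (t := t159)
    (all_cons p2358 (all_cons p1768 (all_cons p1770 (all_cons p1716 (all_cons p1769 (all_cons p2360 (all_cons p1661 (all_cons p1717 (all_cons p1719 (all_cons p2069 all_nil)))))))))) (all_cons f_w480_488_4_40_40d_p (all_cons f_w488_496_4_30_40d_p (all_cons f_w504_512_4_35_45d_p (all_cons f_w524_528_4_40_45d_p (all_cons f_w496_504_4_30_40d_p (all_cons f_w512_520_4_30_40d_p (all_cons f_w496_500_4_40_45d_p (all_cons f_w500_504_4_40_45d_p (all_cons f_w520_524_4_35_45d_p (all_cons f_w528_532_4_40_45d_p (all_cons f_w532_536_0_39_42d_p (all_cons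 f_w536_540_4_39_42d_p all_nil))))))))))))
    (by decide +kernel)
def t160 : Tree := (.sg 96 (.sg 80 (.sg 72 (.sr 2304 (.sg 68 (.sR 1952 (.sr 2176 (.leaf 0x43058040001e001129043461480431040) (.leaf 0x47048040001e0021080000000b0461044)) (.sR 1984 (.leaf 0x46448040041e0061080000000b0455044) (.sr 2176 (.sR 2080 (.sR 2016 (.leaf 0x3f064000081e001148e4a67146a3f1040) (.sR 2048 (.leaf 0x3e0680000c1e001148f08cdeb803e1040) (.leaf 0x3d070000101e001158ccf7b86803d1040))) (.sR 2112 (.leaf 0x3f068000141e003149fc0002c803f1000) (.sR 2144 (.leaf 0x400500001c1e0031180000000b0401004) (.sg 66 (.sR 2224 (.sr 2112 (.sR 2176 (.sR 2160 (.leaf 0x42064000181e000140e0322e480421040) (.leaf 0x4205c000201e000130ac2dec46a421040)) (.sR 2192 (.leaf 0x41078000241e000168d4c45ab6a411040) (.sR 2208 (.leaf 0x3d078000281e000168dcc1e6a803d1040) (.leaf 0x400740002c1e000168e4ab71b80401040)))) (.sR 2160 (.sg 65 (.leaf 0x4006c000181e007160e0b638f80401040) (.leaf 3)) (.leaf 3))) (.leaf 3)) (.leaf 3))))) (.sR 2048 (.sR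 2016 (.leaf 0x46c4c000081e0021100000000b845d044) (.leaf 0x4604c0000c1e0021100000000b8455044)) (.sR 2080 (.leaf 0x4584c000101e0021100000000b444d044) (.sR 2112 (.sg 66 (.leaf 0x40050000141e0081180000000b0401004) (.leaf 3)) (.leaf 3))))))) (.sR 1984 (.sR 1952 (.sr 2176 (.leaf 0x3e064040001e003140dcbefe0803e1040) (.leaf 3)) (.leaf 0x46448040041e0041080000000ac455044)) (.sR 2016 (.leaf 0x46c4c000081e0041100000000b845d044) (.leaf 3)))) (.sR 1984 (.sg 68 (.sr 2432 (.sR 1952 (.leaf 0x47048040001e0051080000000b8461044) (.leaf 0x46448040041e0051080000000ac455044)) (.leaf 3)) (.leaf 3)) (.leaf 3))) (.leaf 3)) (.leaf 3)) (.leaf 3))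
theorem k160 : ChunkP 5 5 2048 2560 64 101 1920 2240 :=
  chkD_sound (Q := 40) (C := [c821.c, c868.c, c1287.c, c870.c, c906.c, c1771.c, c904.c, c1074.c, c1289.c])
    (T := [f_w480_488_4_40_40d, f_w488_496_4_30_40d, f_w496_504_4_30_40d, f_w504_512_4_35_45d, f_w512_520_4_30_40d, f_w520_528_0_30_40d, f_w536_540_4_39_42d, f_w528_536_0_20_30d, f_w540_544_4_36_45d, f_w544_548_4_36_42d, f_w548_552_4_35_40d, f_w552_556_4_36_39d]) (t := t160)
    (all_cons p821 (all_cons p868 (all_cons p1287 (all_cons p870 (all_cons p906 (all_cons p1771 (all_cons p904 (all_cons p1074 (all_cons p1289 all_nil))))))))) (all_cons f_w480_488_4_40_40d_p (all_cons f_w488_496_4_30_40d_p (all_cons f_w496_504_4_30_40d_p (all_cons f_w504_512_4_35_45d_p (all_cons f_w512_520_4_30_40d_p (all_cons f_w520_528_0_30_40d_p (all_cons f_w536_540_4_39_42d_p (all_cons f_w528_536_0_20_30d_p (all_cons f_w540_544_4_36_45d_p (all_cons f_w544_548_4_36_42d_p (all_cons f_w548_552_4_35_40d_p (all_cons f_w552_556_4_36_39d_p all_nil))))))))))))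
    (by decide +kernel)
def t161 : Tree := (.sg 8 (.sr 2816 (.sR 2080 (.sR 1984 (.sR 1952 (.leaf 0x44c3414010240010f80000000b8441044) (.leaf 0x3e03c1801424001108946ddf9803e1040)) (.sR 2016 (.leaf 0x3e04018018240011109c65933803e1040) (.sR 2048 (.leaf 0x460401401c240011100000000b8455044) (.leaf 0x4584014020240011100000000b444d044)))) (.sR 2144 (.sR 2112 (.leaf 0x400480800c220041180000000b0401004) (.sg 4 (.sr 2688 (.sg 2 (.sR 2128 (.leaf 0x3e0540c004240081390401056803e1000) (.leaf 0x3a0540c00824008138f80b18c803a1000)) (.sR 2128 (.leaf 0x3a0500c0042400a130dc1188f803a1000) (.leaf 0x3b0540c0082400a138f807d36803b1000))) (.sg 2 (.sR 2128 (.leaf 0x3c04c100042600b130dc081d0803c1000) (.leaf 0x3b04c100082600b130d00f2fc803b1000)) (.sR 2128 (.leaf 0x3e04c100042600d130dc02151803e1000) (.leaf 0x3c04c100082600d130d009f12803c1000)))) (.sr 2688 (.leaf 0x4304c140002400912884dfa3480431080) (.leaf 0x40050140002400c13090ef4f080401080)))) (.sR 2176 (.leaf 0x3f05c100242200414108003e8803f1000) (.sR 2208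 (.leaf 0x3e06010028220041491c00b5d803e1000) (.leaf 0x3e0641002c2200415134007eb803e1000))))) (.sR 2080 (.sR 1984 (.sR 1952 (.leaf 0x44c3414010240000f80000000b8441044) (.leaf 0x400401801424000110a83978680401040)) (.sR 2016 (.leaf 0x400441801824000118b03845c80401040) (.sR 2048 (.leaf 0x460401401c240001100000000b8455044) (.leaf 0x4584014020240001100000000b444d044)))) (.sR 2144 (.sR 2112 (.leaf 0x400440c00c240061180000000b0401004) (.sg 4 (.sr 2944 (.sg 2 (.sR 2128 (.leaf 0x3c048100042600e128bc0f802803c1000) (.leaf 0x3b048100082600e128b41c606803b1000)) (.sR 2128 (.leaf 0x3d048100042600f128bc0900c803d1000) (.leaf 0x3c048100082600f128b4130c5803c1000))) (.sg 2 (.sR 2128 (.leaf 0x3c0441000426010120a01ea3c803c1000) (.leaf 0x3e0481000826010128b405245803e1000)) (.sR 2128 (.leaf 0x3d0441000426011120a012c0d803d1000) (.leaf 0x3c04410008260111209c267d2803c1000)))) (.sr 2944 (.leaf 0x3f05014000240141309111090803f1080) (.leaf 0x3f05014000240181309111090803f1080)))) (.sR 2176 (.leaf 0x3f05c100242200614108003e8803f1000)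 (.sR 2208 (.leaf 0x3e06010028220061491c00b5d803e1000) (.leaf 0x3f0641002c2200615134001fd803f1000)))))) (.sr 2816 (.sR 2080 (.sR 1984 (.sR 1952 (.leaf 0x44c3810010220020f80000000b8441044) (.leaf 0x4644014014220021080000000ac455044)) (.sR 2016 (.leaf 0x46c4414018220021100000000b845d044) (.sR 2048 (.leaf 0x460441001c220021100000000b8455044) (.leaf 0x4584410020220021100000000b444d044)))) (.sR 2144 (.sR 2112 (.leaf 0x400480400c200051100000000b4401004) (.sg 12 (.sr 2688 (.leaf 0x3f05014000240091309111090803f1080) (.leaf 0x3f050140002400c1309111090803f1080)) (.sr 2688 (.leaf 0x40054100002201213090ef4f080401080) (.leaf 0x3f05410000220131309111090803f1080)))) (.sR 2176 (.leaf 0x400500c024200051208c0000280401000) (.sR 2208 (.leaf 0x3f0540c028200051289404ade803f1000) (.leaf 0x3f0580c02c200051309c02e6d803f1000))))) (.sR 2048 (.sR 1984 (.sR 1952 (.leaf 0x44c3810010220030f80000000b8441044) (.leaf 0x4644014014220031080000000ac455044)) (.sR 2016 (.leaf 0x46c4414018220031100000000b845d044) (.leaf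 0x460441001c220031100000000b8455044))) (.sR 2144 (.sR 2080 (.leaf 0x4584410020220031100000000b444d044) (.sg 12 (.sR 2112 (.leaf 0x400480800c220161180000000b0401004) (.leaf 0x44050100002200012884a327480441080)) (.sR 2112 (.leaf 0x400440800c220171100000000b4401004) (.leaf 0x44050100002201512884a327480441080)))) (.sR 2176 (.leaf 0x3d058080241e007128a411d69803d1000) (.sR 2208 (.leaf 0x3c05c080281e007130ac168d5803c1000) (.leaf 0x3f0640802c1e007140d400986803f1000)))))))
theorem k161 : ChunkP 5 5 2560 3072 0 16 1920 2240 :=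
  chkD_sound (Q := 40) (C := [c3354.c, c2769.c, c2772.c, c3357.c, c2770.c, c2774.c, c3355.c, c3360.c, c2722.c, c2723.c, c2724.c, c3067.c, c3068.c, c3069.c, c3306.c, c3308.c, c3526.c, c3528.c, c2725.c, c3070.c, c3307.c, c3356.c, c3358.c, c3361.c, c3527.c])
    (T := [f_w528_536_8_60_20d, f_w528_532_0_45_35d, f_w532_536_0_45_35d, f_w520_528_0_50_20d, f_w480_488_4_55_50d, f_w488_496_4_60_40d, f_w496_504_4_60_40d, f_w504_512_4_55_45d, f_w512_520_4_55_45d, f_w536_544_0_60_20d, f_w544_552_0_60_20d, f_w552_560_0_60_20d]) (t := t161)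
    (all_cons p3354 (all_cons p2769 (all_cons p2772 (all_cons p3357 (all_cons p2770 (all_cons p2774 (all_cons p3355 (all_cons p3360 (all_cons p2722 (all_cons p2723 (all_cons p2724 (all_cons p3067 (all_cons p3068 (all_cons p3069 (all_cons p3306 (all_cons p3308 (all_cons p3526 (all_cons p3528 (all_cons p2725 (all_cons p3070 (all_cons p3307 (all_cons p3356 (all_cons p3358 (all_cons p3361 (all_cons p3527 all_nil))))))))))))))))))))))))) (all_cons f_w528_536_8_60_20d_p (all_cons f_w528_532_0_45_35d_p (all_cons f_w532_536_0_45_35d_p (all_cons f_w520_528_0_50_20d_p (all_cons f_w480_488_4_55_50d_p (all_cons f_w488_496_4_60_40d_p (all_cons f_w496_504_4_60_40d_p (all_cons f_w504_512_4_55_45d_p (all_cons f_w512_520_4_55_45d_p (all_cons f_w536_544_0_60_20d_p (all_cons f_w544_552_0_60_20d_p (all_cons f_w552_560_0_60_20d_p all_nil))))))))))))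
    (by decide +kernel)
def t162 : Tree := (.sr 2816 (.sR 1984 (.sR 1952 (.sg 20 (.leaf 0x44c3810014220060f80000000b8441044) (.leaf 0x44c3c0c014200010f80000000b8441044)) (.leaf 0x45040100202000a1000000000b4449044)) (.sR 2016 (.sg 20 (.leaf 0x46c4810018200061100000000b845d044) (.leaf 0x4584410018200011080000000ac44d044)) (.sR 2048 (.leaf 0x450440c0242000a1080000000b8449044) (.sg 20 (.sR 2080 (.leaf 0x458480c01c200061100000000b444d044) (.sR 2112 (.leaf 0x4004804000200011100000000b8401004) (.sr 2688 (.sR 2176 (.sR 2144 (.leaf 0x41054100042200b13090db7bd80411080) (.leaf 0x3e05c0c00820005138dc01ff1803e1000)) (.sR 2208 (.leaf 0x3d0600c00c20005140ec03715803d1000) (.leaf 0x3c0640c01020005148fc04a1d803c1000))) (.sR 2176 (.sR 2144 (.leaf 0x3f054100042200d1309111090803f1080) (.leaf 0x410600c0082000714108003e880411000)) (.sR 2208 (.leaf 0x3f0640c00c200071491c002da803f1000) (.leaf 0x3f0680c0102000715134001fd803f1000)))))) (.sR 2080 (.leaf 0x458480c01c200011100000000b444d044) (.sr 2688 (.sR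 2144 (.sR 2112 (.leaf 0x4004c04000200001180000000b0401004) (.leaf 0x430540c0042000c12884dfa3480431080)) (.sR 2176 (.leaf 0x3f0500c008200001208c09247803f1000) (.sR 2208 (.leaf 0x3f0540c00c200001289404ade803f1000) (.leaf 0x3e0580c010200001309c0abc6803e1000)))) (.sR 2144 (.sR 2112 (.leaf 0x4004c04000200021180000000b0401004) (.leaf 0x400580c0042000e13090ef4f080401080)) (.sR 2176 (.leaf 0x4105c080081e002130bc00ff280411000) (.sR 2208 (.leaf 0x3f0600800c1e002138c800c48803f1000) (.leaf 0x3e064080101e002140d4025c9803e1000)))))))))) (.sR 2016 (.sR 1952 (.sg 20 (.leaf 0x44c3c0c014200120f80000000b8441044) (.leaf 0x44c3c0c014200040f80000000b8441044)) (.sR 1984 (.leaf 0x4644410020200031080000000b8455044) (.leaf 0x4584410018200031080000000ac44d044))) (.sR 2048 (.leaf 0x450440c024200031080000000b8449044) (.sR 2080 (.leaf 0x458480c01c200031100000000b444d044) (.sg 20 (.sR 2144 (.sR 2112 (.sr 2944 (.leaf 0x4004808000220101180000000b0401004) (.leaf 0x4004c04000200151180000000b0401004)) (.leaf 0x440540c0042001112884a327480441080))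 (.sR 2176 (.leaf 0x40058080081e004128a40000280401000) (.sR 2208 (.leaf 0x3f05c0800c1e004130ac019ae803f1000) (.leaf 0x3e060080101e004138b804b0e803e1000)))) (.sR 2208 (.sr 2944 (.sR 2144 (.sR 2112 (.leaf 0x4004c04000200081180000000b0401004) (.leaf 0x4205c0c0042000f1389cccd5280421080)) (.sR 2176 (.leaf 0x40060080081e008138dc0000280401000) (.leaf 0x3f0640800c1e008140ec00635803f1000))) (.sR 2144 (.sR 2112 (.leaf 0x4004804000200091100000000b4401004) (.leaf 0x3f05c0c004200141389cffbad803f1080)) (.sR 2176 (.leaf 0x3f060080081e009138dc0080a803f1000) (.leaf 0x3e0640800c1e009140ec018b1803e1000)))) (.leaf 0x4005c040101c013128880000280401000)))))))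
theorem k162 : ChunkP 5 5 2560 3072 16 24 1920 2240 :=
  chkD_sound (Q := 40) (C := [c2734.c, c2777.c, c3081.c, c3362.c, c3363.c, c2731.c, c2775.c, c3078.c, c3321.c, c3538.c, c2776.c, c2726.c, c2728.c, c3071.c, c3074.c, c3314.c, c3318.c, c3358.c, c3361.c, c3366.c, c3532.c, c3534.c])
    (T := [f_w520_528_0_50_20d, f_w528_536_8_60_20d, f_w536_544_0_60_20d, f_w544_552_0_60_20d, f_w552_560_0_60_20d, f_w480_488_4_55_50d, f_w496_504_4_60_40d, f_w512_520_4_55_45d, f_w488_496_4_60_40d, f_w504_512_4_55_45d]) (t := t162)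
    (all_cons p2734 (all_cons p2777 (all_cons p3081 (all_cons p3362 (all_cons p3363 (all_cons p2731 (all_cons p2775 (all_cons p3078 (all_cons p3321 (all_cons p3538 (all_cons p2776 (all_cons p2726 (all_cons p2728 (all_cons p3071 (all_cons p3074 (all_cons p3314 (all_cons p3318 (all_cons p3358 (all_cons p3361 (all_cons p3366 (all_cons p3532 (all_cons p3534 all_nil)))))))))))))))))))))) (all_cons f_w520_528_0_50_20d_p (all_cons f_w528_536_8_60_20d_p (all_cons f_w536_544_0_60_20d_p (all_cons f_w544_552_0_60_20d_p (all_cons f_w552_560_0_60_20d_p (all_cons f_w480_488_4_55_50d_p (all_cons f_w496_504_4_60_40d_p (all_cons f_w512_520_4_55_45d_p (all_cons f_w488_496_4_60_40d_p (all_cons f_w504_512_4_55_45d_p all_nil))))))))))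
    (by decide +kernel)
def t163 : Tree := (.sR 2016 (.sR 1952 (.leaf 0x44c3c0c02c200000f80000000bc441044) (.sR 1984 (.leaf 0x4504010030200001000000000b4449044) (.sr 2688 (.leaf 0x46c481000c2000a1100000000b845d044) (.leaf 0x430481000c200101109c1709880431040)))) (.sR 2048 (.leaf 0x45048080341e0001080000000b8449044) (.sR 2080 (.leaf 0x4584c080381e0001100000000b844d044) (.sr 2688 (.sR 2112 (.leaf 0x40048040102000b1100000000b4401004) (.sg 26 (.sR 2176 (.sR 2144 (.leaf 0x440580c00420009130909fd6f80441080) (.leaf 0x400500c008200021208c0000280401000)) (.sR 2208 (.leaf 0x400540c01c20002128940000280401000) (.leaf 0x3f0580c024200021309c02e6d803f1000))) (.sR 2144 (.leaf 0x430540c0042000512884dfa3480431080) (.sR 2208 (.sr 2624 (.sR 2176 (.sR 2160 (.sg 27 (.leaf 0x4304808000220071187c8537b80431040) (.leaf 0x4405004000200081208c1609e80441040)) (.leaf 0x420580c0142200613894cf02e80421080)) (.sR 2192 (.leaf 0x4005008018200011208080b8780401040) (.leaf 0x4305008020200011207c8345880431040))) (.sR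 2176 (.sR 2160 (.sg 27 (.leaf 0x43048080002200d1187c8537b80431040) (.leaf 0x4304c040002000e1187c8537b80431040)) (.leaf 0x430580c0142200c13894bbb6880431080)) (.sR 2192 (.leaf 0x4005008018200031208080b8780401040) (.leaf 0x4305008020200031207c8345880431040)))) (.sR 2224 (.leaf 0x3f0600803c200051409514317803f1080) (.sr 2624 (.leaf 0x410580402820001130944a0c680411040) (.leaf 0x43058040282000313094268d880431040))))))) (.sR 2144 (.sR 2112 (.leaf 0x4004804010200041100000000b4401004) (.leaf 0x430580c0042000f13090b3afb80431080)) (.sR 2176 (.sg 26 (.leaf 0x4005c080081e011130bc0000280401000) (.leaf 0x3f054080081e0121208c09247803f1000)) (.sR 2208 (.leaf 0x410540801c1e004120842724680411000) (.leaf 0x40058080241e004128880000280401000))))))))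
theorem k163 : ChunkP 5 5 2560 2816 24 28 1920 2240 :=
  chkD_sound (Q := 40) (C := [c2780.c, c2675.c, c2736.c, c2918.c, c3086.c, c2732.c, c2672.c, c2674.c, c2676.c, c2730.c, c2734.c, c2737.c, c2915.c, c2917.c, c2919.c, c3078.c, c3081.c, c3085.c, c3087.c])
    (T := [f_w536_540_4_42_42d, f_w528_536_8_60_20d, f_w536_544_0_60_20d, f_w496_504_4_60_40d, f_w520_528_0_50_20d, f_w540_544_8_45_35d, f_w544_548_4_45_42d, f_w544_552_0_60_20d, f_w548_552_4_45_42d, f_w552_560_0_60_20d, f_w556_560_4_42_36d, f_w480_488_4_55_50d, f_w488_496_4_60_40d, f_w504_512_4_55_45d, f_w512_520_4_55_45d, f_w552_556_8_50_35d]) (t := t163)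
    (all_cons p2780 (all_cons p2675 (all_cons p2736 (all_cons p2918 (all_cons p3086 (all_cons p2732 (all_cons p2672 (all_cons p2674 (all_cons p2676 (all_cons p2730 (all_cons p2734 (all_cons p2737 (all_cons p2915 (all_cons p2917 (all_cons p2919 (all_cons p3078 (all_cons p3081 (all_cons p3085 (all_cons p3087 all_nil))))))))))))))))))) (all_cons f_w536_540_4_42_42d_p (all_cons f_w528_536_8_60_20d_p (all_cons f_w536_544_0_60_20d_p (all_cons f_w496_504_4_60_40d_p (all_cons f_w520_528_0_50_20d_p (all_cons f_w540_544_8_45_35d_p (all_cons f_w544_548_4_45_42d_p (all_cons f_w544_552_0_60_20d_p (all_cons f_w548_552_4_45_42d_p (all_cons f_w552_560_0_60_20d_p (all_cons f_w556_560_4_42_36d_p (all_cons f_w480_488_4_55_50d_p (all_cons f_w488_496_4_60_40d_p (all_cons f_w504_512_4_55_45d_p (all_cons f_w512_520_4_55_45d_p (all_cons f_w552_556_8_50_35d_p all_nil))))))))))))))))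
    (by decide +kernel)
def t164 : Tree := (.sr 2688 (.sR 2016 (.sR 1952 (.leaf 0x44c3c0c018200000f80000000b8441044) (.sR 1984 (.leaf 0x464441001c200001080000000b0455044) (.leaf 0x46c4810020200001100000000b845d044))) (.sR 2048 (.leaf 0x4604c080241e0001100000000b8455044) (.sR 2080 (.leaf 0x4584c080281e0001100000000b444d044) (.sg 30 (.sR 2112 (.leaf 0x4004c04010200121180000000b4401004) (.sR 2144 (.leaf 0x440540c0302000812884a327480441080) (.sR 2208 (.sr 2624 (.sR 2176 (.sR 2160 (.sg 29 (.leaf 0x44050040002000e1208c1609e80441040) (.leaf 0x44050040002000f1208c1609e80441040)) (.leaf 0x42058080042000c13088d25d880421080)) (.sR 2192 (.leaf 0x410500800c20002120806afb380411040) (.leaf 0x4305008008200021207c8345880431040))) (.sR 2176 (.sR 2160 (.sg 29 (.leaf 0x4304c04000200191187c8537b80431040) (.sr 2656 (.leaf 0x4105004000200151208c4f46380411040) (.leaf 0x41050040002001b1208c4f46380411040))) (.leaf 0x42058080042001713088d25d880421080)) (.sR 2192 (.leaf 0x410500800c20004120806afb380411040)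 (.leaf 0x4405008008200041207c70a1a80441040)))) (.sR 2224 (.leaf 0x400600803c2000814095010af80401080) (.sr 2624 (.leaf 0x44058040142000213094164aa80441040) (.leaf 0x4205404014200041288056e4580421040)))))) (.sR 2112 (.leaf 0x4004c000101e0131100000000b4401004) (.sR 2208 (.sr 2624 (.sR 2160 (.sR 2128 (.leaf 0x4004c0402c200071180000000b0401004) (.sR 2144 (.leaf 0x4004c04034200071180000000b0401004) (.sg 31 (.sr 2592 (.leaf 0x40050040002000b1208c635d880401040) (.leaf 0x4105004000200141208c4f46380411040)) (.leaf 0x4405004000200101208c1609e80441040)))) (.sR 2176 (.leaf 0x42058080042000d13088d25d880421080) (.sR 2192 (.leaf 0x410500800c20003120806afb380411040) (.leaf 0x4405008008200031207c70a1a80441040)))) (.sR 2160 (.sR 2128 (.leaf 0x4004c0402c200091180000000b0401004) (.sR 2144 (.leaf 0x4004c04034200091180000000b0401004) (.sg 31 (.leaf 0x4404c040002001a1187c74e9b80441040) (.sr 2656 (.leaf 0x4105004000200161208c4f46380411040) (.leaf 0x41050040002001c1208c4f46380411040))))) (.sR 2176 (.leaf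 0x42058080042001813088d25d880421080) (.sR 2192 (.leaf 0x410500800c20005120806afb380411040) (.leaf 0x4305008008200051207c8345880431040))))) (.sR 2224 (.leaf 0x420600803c2001114094da34380421080) (.sr 2624 (.leaf 0x4305404014200031288042d6f80431040) (.leaf 0x4305404014200051288042d6f80431040))))))))) (.sR 2048 (.sR 1984 (.sR 1952 (.leaf 0x45c400c018200011000000000b044d044) (.leaf 0x464441001c200011080000000ac455044)) (.sR 2016 (.leaf 0x46c4810020200011100000000b845d044) (.leaf 0x4604c080241e0011100000000b8455044))) (.sR 2112 (.sR 2080 (.leaf 0x4584c080281e0011100000000b444d044) (.sg 30 (.leaf 0x4004c000101e0061100000000b4401004) (.leaf 0x4004c000101e0251100000000b8401004))) (.sR 2144 (.leaf 0x44058080301e02312884a327480441080) (.sg 30 (.sR 2176 (.sr 2752 (.sR 2160 (.sg 29 (.sr 2720 (.leaf 0x42050040002001d1208c3b9f480421040) (.leaf 0x4205004000200261208c3b9f480421040)) (.sr 2720 (.leaf 0x42050040002001e1208c3b9f480421040) (.leaf 0x4305004000200271208c287e580431040))) (.leaf 0x41058080042002013089192c780411080))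 (.sR 2160 (.sg 29 (.sr 2784 (.leaf 0x4305004000200291208c287e580431040) (.leaf 0x4304c04000200321187c8537b80431040)) (.sr 2784 (.leaf 0x43050040002002a1208c287e580431040) (.leaf 0x4405004000200331208c1609e80441040))) (.leaf 0x42058080042002c13088d25d880421080))) (.sR 2208 (.leaf 0x41054080401e006120842724680411000) (.leaf 0x40058080441e006128880000280401000))) (.sR 2208 (.sr 2752 (.sR 2176 (.sR 2160 (.sg 31 (.sr 2720 (.leaf 0x42050040002001f1208c3b9f480421040) (.leaf 0x4205004000200281208c3b9f480421040)) (.leaf 0x460540803820022128807e0d180461080)) (.leaf 0x42058080042002113088d25d880421080)) (.sR 2192 (.leaf 0x420500800c2000a120805606380421040) (.leaf 0x44050080082000a1207c70a1a80441040))) (.sR 2176 (.sR 2160 (.sg 31 (.sr 2784 (.leaf 0x43050040002002b1208c287e580431040) (.leaf 0x4405004000200341208c1609e80441040)) (.leaf 0x46054080382002e128807e0d180461080)) (.leaf 0x42058080042002d13088d25d880421080)) (.sR 2192 (.leaf 0x420500800c20030120805606380421040) (.sg 31 (.leaf 0x42054080082002f1288c3d97180421040)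 (.leaf 0x4305408008200311288c2a89b80431040))))) (.leaf 0x44060080481e02413884cb24480441080)))))))
theorem k164 : ChunkP 5 5 2560 2816 28 32 1920 2240 :=
  chkD_sound (Q := 40) (C := [c2737.c, c3086.c, c2678.c, c2680.c, c2921.c, c2923.c, c3089.c, c2687.c, c2733.c, c2931.c, c3030.c, c2647.c, c2673.c, c2675.c, c2677.c, c2679.c, c2681.c, c2735.c, c2739.c, c2741.c, c2857.c, c2892.c, c2893.c, c2916.c, c2918.c, c2920.c, c2922.c, c2974.c, c2975.c, c3004.c, c3005.c, c3006.c, c3023.c, c3024.c, c3025.c, c3081.c, c3083.c, c3092.c, c3128.c, c3129.c, c3130.c, c3156.c, c3157.c, c3158.c, c3174.c, c3175.c, c3176.c, c3180.c, c3181.c, c3182.c, c3232.c, c3233.c, c3234.c])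
    (T := [f_w536_540_4_42_42d, f_w540_544_8_45_35d, f_w548_552_4_45_42d, f_w544_548_4_45_42d, f_w520_528_0_50_20d, f_w556_560_4_42_36d, f_w480_488_4_55_50d, f_w488_496_4_60_40d, f_w496_504_4_60_40d, f_w504_512_4_55_45d, f_w512_520_4_55_45d, f_w528_532_0_45_35d, f_w528_536_8_60_20d, f_w532_536_0_45_35d, f_w536_540_8_45_45d, f_w552_556_8_50_35d, f_w544_552_0_60_20d, f_w552_560_0_60_20d, f_w552_560_8_55_40d]) (t := t164)
    (all_cons p2737 (all_cons p3086 (all_cons p2678 (all_cons p2680 (all_cons p2921 (all_cons p2923 (all_cons p3089 (all_cons p2687 (all_cons p2733 (all_cons p2931 (all_cons p3030 (all_cons p2647 (all_cons p2673 (all_cons p2675 (all_cons p2677 (all_cons p2679 (all_cons p2681 (all_cons p2735 (all_cons p2739 (all_cons p2741 (all_cons p2857 (all_cons p2892 (all_cons p2893 (all_cons p2916 (all_cons p2918 (all_cons p2920 (all_cons p2922 (all_cons p2974 (all_cons p2975 (all_cons p3004 (all_cons p3005 (all_cons p3006 (all_cons p3023 (all_cons p3024 (all_cons p3025 (all_cons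 p3081 (all_cons p3083 (all_cons p3092 (all_cons p3128 (all_cons p3129 (all_cons p3130 (all_cons p3156 (all_cons p3157 (all_cons p3158 (all_cons p3174 (all_cons p3175 (all_cons p3176 (all_cons p3180 (all_cons p3181 (all_cons p3182 (all_cons p3232 (all_cons p3233 (all_cons p3234 all_nil))))))))))))))))))))))))))))))))))))))))))))))))))))) (all_cons f_w536_540_4_42_42d_p (all_cons f_w540_544_8_45_35d_p (all_cons f_w548_552_4_45_42d_p (all_cons f_w544_548_4_45_42d_p (all_cons f_w520_528_0_50_20d_p (all_cons f_w556_560_4_42_36d_p (all_cons f_w480_488_4_55_50d_p (all_cons f_w488_496_4_60_40d_p (all_cons f_w496_504_4_60_40d_p (all_cons f_w504_512_4_55_45d_p (all_cons f_w512_520_4_55_45d_p (all_cons f_w528_532_0_45_35d_p (all_cons f_w528_536_8_60_20d_p (all_cons f_w532_536_0_45_35d_p (all_cons f_w536_540_8_45_45d_p (all_cons f_w552_556_8_50_35d_p (all_cons f_w544_552_0_60_20d_p (all_cons f_w552_560_0_60_20d_p (all_cons f_w552_560_8_55_40d_p all_nil)))))))))))))))))))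
    (by decide +kernel)
def t165 : Tree := (.sg 28 (.sR 2016 (.sR 1952 (.leaf 0x44c40080181e0000f80000000b8441044) (.sR 1984 (.leaf 0x464480c01c1e0001080000000ac455044) (.leaf 0x46c4c0c0201e0001100000000b845d044))) (.sR 2048 (.leaf 0x4604c080241e0001100000000b8455044) (.sR 2080 (.leaf 0x4584c080281e0001100000000b444d044) (.sr 2944 (.sR 2144 (.sR 2112 (.leaf 0x4004804000200021100000000b4401004) (.leaf 0x3f0580c00c2000d1309111090803f1080)) (.sR 2176 (.leaf 0x42058080041e002128a40882f80421000) (.sR 2208 (.leaf 0x4005c080081e002130ac0000280401000) (.leaf 0x40060080141e002138b80000280401000)))) (.sR 2144 (.sR 2112 (.sg 26 (.leaf 0x4004c04000200151180000000b0401004) (.leaf 0x4004c000001e0051100000000b4401004)) (.leaf 0x400600800c1e0131389cee9ce80401080)) (.sR 2176 (.leaf 0x3e058080041e004128a40882f803e1000) (.sR 2208 (.leaf 0x41064040081c004138c800c4880411000) (.leaf 0x40068040141c004140d40000280401000)))))))) (.sR 2016 (.sR 1952 (.leaf 0x44c40080181e0010f80000000bc441044) (.sR 1984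 (.leaf 0x450440c01c1e0011000000000b0449044) (.leaf 0x458480c0201e0011080000000ac44d044))) (.sR 2048 (.leaf 0x45048080241e0011080000000b8449044) (.sR 2080 (.leaf 0x4584c080281e0011100000000b444d044) (.sr 2944 (.sR 2144 (.sR 2112 (.sg 30 (.leaf 0x4004c000001e0031100000000b4401004) (.sR 2096 (.leaf 0x430500402c1e007118901fb7080431040) (.leaf 0x43050040301e0071188c2689580431040))) (.leaf 0x4005c0800c1e00613090ef4f080401080)) (.sR 2208 (.sg 30 (.sR 2176 (.leaf 0x3f054080041e0031208c09247803f1000) (.leaf 0x4105c080081e003130ac019ae80411000)) (.sR 2176 (.sr 2880 (.sR 2160 (.sg 31 (.leaf 0x46054080102000b128807e0d180461080) (.sr 2848 (.leaf 0x45050040342000a1208c0503e80451040) (.leaf 0x4404c040342000f1187c74e9b80441040))) (.leaf 0x42058080382000c13088d25d880421080)) (.sR 2160 (.sg 31 (.leaf 0x460540801020010128807e0d180461080) (.leaf 0x460540801020012128807e0d180461080)) (.leaf 0x42058080382001113088d25d880421080))) (.leaf 0x41054080081e00e120842724680411000))) (.leaf 0x430600803c1e006138851874e80431080)))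 (.sR 2144 (.sR 2112 (.sg 30 (.leaf 0x4004c000001e0081100000000b4401004) (.sR 2096 (.leaf 0x430500402c1e005118901fb7080431040) (.leaf 0x42050040301e0051188c39be180421040))) (.leaf 0x410600800c1e0141389cdd44280411080)) (.sR 2176 (.sg 30 (.leaf 0x4305c080041e008130bc08a1280431000) (.leaf 0x4205c040041c016128a40882f80421000)) (.sR 2208 (.leaf 0x40058040081c009120841d5f380401000) (.leaf 0x42060040141c0091309c0abc680421000)))))))))
theorem k165 : ChunkP 5 5 2816 3072 24 32 1920 2240 :=
  chkD_sound (Q := 40) (C := [c3366.c, c3368.c, c3324.c, c3326.c, c3541.c, c3543.c, c3321.c, c3325.c, c3544.c, c3545.c, c3257.c, c3267.c, c3268.c, c3318.c, c3330.c, c3401.c, c3427.c, c3428.c, c3429.c, c3534.c, c3538.c, c3540.c, c3546.c])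
    (T := [f_w520_528_0_50_20d, f_w536_544_0_60_20d, f_w544_552_0_60_20d, f_w528_536_8_60_20d, f_w536_540_8_45_45d, f_w552_560_0_60_20d, f_w480_488_4_55_50d, f_w488_496_4_60_40d, f_w496_504_4_60_40d, f_w504_512_4_55_45d, f_w512_520_4_55_45d, f_w520_524_4_50_45d, f_w524_528_4_50_45d, f_w536_540_4_42_42d, f_w540_544_8_45_35d, f_w552_560_8_55_40d]) (t := t165)
    (all_cons p3366 (all_cons p3368 (all_cons p3324 (all_cons p3326 (all_cons p3541 (all_cons p3543 (all_cons p3321 (all_cons p3325 (all_cons p3544 (all_cons p3545 (all_cons p3257 (all_cons p3267 (all_cons p3268 (all_cons p3318 (all_cons p3330 (all_cons p3401 (all_cons p3427 (all_cons p3428 (all_cons p3429 (all_cons p3534 (all_cons p3538 (all_cons p3540 (all_cons p3546 all_nil))))))))))))))))))))))) (all_cons f_w520_528_0_50_20d_p (all_cons f_w536_544_0_60_20d_p (all_cons f_w544_552_0_60_20d_p (all_cons f_w528_536_8_60_20d_p (all_cons f_w536_540_8_45_45d_p (all_cons f_w552_560_0_60_20d_p (all_cons f_w480_488_4_55_50d_p (all_cons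 f_w488_496_4_60_40d_p (all_cons f_w496_504_4_60_40d_p (all_cons f_w504_512_4_55_45d_p (all_cons f_w512_520_4_55_45d_p (all_cons f_w520_524_4_50_45d_p (all_cons f_w524_528_4_50_45d_p (all_cons f_w536_540_4_42_42d_p (all_cons f_w540_544_8_45_35d_p (all_cons f_w552_560_8_55_40d_p all_nil))))))))))))))))
    (by decide +kernel)
def t166 : Tree := (.sR 2016 (.sR 1952 (.leaf 0x44c40080301e0000f80000000b8441044) (.sR 1984 (.leaf 0x4504010034200001000000000b8449044) (.sg 34 (.leaf 0x46c4810024200081100000000b845d044) (.leaf 0x4584410024200091080000000ac44d044)))) (.sR 2048 (.leaf 0x4604c080381e0001100000000b8455044) (.sR 2080 (.leaf 0x4584c0803c1e0001100000000b444d044) (.sg 34 (.sR 2208 (.sR 2096 (.leaf 0x4404c040281e008110803379b80441040) (.sr 2624 (.sR 2144 (.sR 2112 (.leaf 0x4105004014200031209c38a0880411040) (.sR 2128 (.leaf 0x40050000081e0071180000000b0401004) (.leaf 0x40050000101e0071180000000b0401004))) (.sR 2176 (.sR 2160 (.sg 33 (.leaf 0x440500400c200011208c1609e80441040) (.leaf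 0x450500400c200021208c0503e80451040)) (.leaf 0x420580801c2001213088d25d880421080)) (.sR 2192 (.leaf 0x420500802020003120805606380421040) (.sg 33 (.leaf 0x4205408004200011288c3d97180421040) (.leaf 0x4205408004200021288c3d97180421040))))) (.sR 2144 (.sR 2112 (.leaf 0x44050040142000b1209c0f37480441040) (.sR 2128 (.leaf 0x40050000081e00e1180000000b4401004) (.leaf 0x40050000101e00e1180000000b0401004))) (.sR 2176 (.sR 2160 (.sg 33 (.leaf 0x46054080182001d128807e0d180461080) (.sr 2656 (.leaf 0x410500400c2001b1208c4f46380411040) (.leaf 0x420500400c200251208c3b9f480421040))) (.leaf 0x420580801c2001e13088d25d880421080)) (.sR 2192 (.leaf 0x43054040201e00b120804249580431040) (.sg 33 (.leaf 0x42054080042000a1288c3d97180421040) (.leaf 0x43058040041e0221288c2a89b80431040))))))) (.sR 2224 (.leaf 0x4205c0802c2001813888e6fe080421080) (.sr 2624 (.sg 33 (.leaf 0x4205804000200011309437f0c80421040) (.leaf 0x43058040002000213094268d880431040)) (.sg 33 (.leaf 0x44058040002000a13094164aa80441040) (.leaf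 0x4405404000200231288030ca780441040))))) (.sR 2208 (.sR 2096 (.leaf 0x4504c040281e0091100000000b4449044) (.sr 2624 (.sR 2144 (.sR 2112 (.leaf 0x4405004014200051209c0f37480441040) (.sR 2128 (.sg 35 (.leaf 0x40050000081e0151180000000b0401004) (.leaf 0x40050000081e0171180000000b0401004)) (.leaf 0x40050000101e0161180000000b4401004))) (.sR 2176 (.sR 2160 (.sg 35 (.sr 2592 (.leaf 0x410500400c200111208c4f46380411040) (.leaf 0x410500400c2001a1208c4f46380411040)) (.leaf 0x460540801820014128807e0d180461080)) (.leaf 0x420580801c2001313088d25d880421080)) (.sR 2192 (.leaf 0x440500802020005120803120680441040) (.sg 35 (.leaf 0x4405408004200041288c182cd80441040) (.leaf 0x4405408004200061288c182cd80441040))))) (.sR 2160 (.sR 2112 (.leaf 0x4204c040142000d1188c39be180421040) (.sg 35 (.sR 2128 (.leaf 0x40050000081e00f1180000000b0401004) (.sR 2144 (.leaf 0x40050000101e00f1180000000b0401004) (.leaf 0x46054080182001f128807e0d180461080))) (.sR 2128 (.leaf 0x40050000081e0101180000000b0401004) (.sR 2144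 (.leaf 0x40050000101e0101180000000b0401004) (.leaf 0x45054080182002112880a9d3580451080))))) (.sR 2176 (.leaf 0x420580801c2002013088d25d880421080) (.sR 2192 (.leaf 0x43054040201e00d120804249580431040) (.sg 35 (.leaf 0x43054080042000c1288c2a89b80431040) (.leaf 0x4305408004200241288c2a89b80431040))))))) (.sR 2224 (.leaf 0x440600402c1e01913888b154480441080) (.sr 2624 (.sg 35 (.leaf 0x4405404000200041288030ca780441040) (.leaf 0x450540400020006128802517c80451040)) (.sg 35 (.leaf 0x45054040002000c128802517c80451040) (.sr 2656 (.leaf 0x42058040002001c1309437f0c80421040) (.leaf 0x4205804000200261309437f0c80421040))))))))))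
theorem k166 : ChunkP 5 5 2560 2688 32 36 1920 2240 :=
  chkD_sound (Q := 40) (C := [c2740.c, c2682.c, c2684.c, c2683.c, c2685.c, c2687.c, c2688.c, c2690.c, c2739.c, c2741.c, c2925.c, c2926.c, c2930.c, c2931.c, c2935.c, c2937.c, c2939.c, c2648.c, c2678.c, c2680.c, c2681.c, c2693.c, c2694.c, c2695.c, c2736.c, c2738.c, c2858.c, c2894.c, c2895.c, c2920.c, c2921.c, c2922.c, c2923.c, c2924.c, c2927.c, c2928.c, c2933.c, c2976.c, c2977.c])
    (T := [f_w556_560_4_42_36d, f_w548_552_4_45_42d, f_w528_532_0_45_35d, f_w536_540_4_42_42d, f_w532_536_0_45_35d, f_w524_528_4_45_35d, f_w536_540_8_45_45d, f_w540_544_8_45_35d, f_w544_548_4_45_42d, f_w496_504_4_60_40d, f_w520_524_4_50_45d, f_w552_556_8_50_35d, f_w480_488_4_55_50d, f_w488_496_4_60_40d, f_w504_512_4_55_45d, f_w512_520_4_55_45d]) (t := t166)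
    (all_cons p2740 (all_cons p2682 (all_cons p2684 (all_cons p2683 (all_cons p2685 (all_cons p2687 (all_cons p2688 (all_cons p2690 (all_cons p2739 (all_cons p2741 (all_cons p2925 (all_cons p2926 (all_cons p2930 (all_cons p2931 (all_cons p2935 (all_cons p2937 (all_cons p2939 (all_cons p2648 (all_cons p2678 (all_cons p2680 (all_cons p2681 (all_cons p2693 (all_cons p2694 (all_cons p2695 (all_cons p2736 (all_cons p2738 (all_cons p2858 (all_cons p2894 (all_cons p2895 (all_cons p2920 (all_cons p2921 (all_cons p2922 (all_cons p2923 (all_cons p2924 (all_cons p2927 (all_cons p2928 (all_cons p2933 (all_cons p2976 (all_cons p2977 all_nil))))))))))))))))))))))))))))))))))))))) (all_cons f_w556_560_4_42_36d_p (all_cons f_w548_552_4_45_42d_p (all_cons f_w528_532_0_45_35d_p (all_cons f_w536_540_4_42_42d_p (all_cons f_w532_536_0_45_35d_p (all_cons f_w524_528_4_45_35d_p (all_cons f_w536_540_8_45_45d_p (all_cons f_w540_544_8_45_35d_p (all_cons f_w544_548_4_45_42d_p (all_cons f_w496_504_4_60_40d_p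 (all_cons f_w520_524_4_50_45d_p (all_cons f_w552_556_8_50_35d_p (all_cons f_w480_488_4_55_50d_p (all_cons f_w488_496_4_60_40d_p (all_cons f_w504_512_4_55_45d_p (all_cons f_w512_520_4_55_45d_p all_nil))))))))))))))))
    (by decide +kernel)
def t167 : Tree := (.sR 2016 (.sR 1952 (.leaf 0x44c40080201e0000f80000000b8441044) (.sR 1984 (.leaf 0x450440c0241e0001000000000b0449044) (.leaf 0x458480c0281e0001080000000ac44d044))) (.sR 2048 (.leaf 0x4604c0802c1e0001100000000b8455044) (.sR 2080 (.leaf 0x4584c080301e0001100000000b444d044) (.sg 34 (.sR 2144 (.sR 2112 (.sR 2096 (.leaf 0x4204c040101e0041108054e6a80421040) (.leaf 0x45050040341e0041188c02eaa80451040)) (.leaf 0x4305c080181e00213090b3afb80431080)) (.sR 2208 (.sr 2752 (.sR 2176 (.sR 2160 (.sg 33 (.leaf 0x460540800020006128807e0d180461080) (.leaf 0x460540800020008128807e0d180461080)) (.leaf 0x42058080082000713088d25d880421080)) (.sR 2192 (.leaf 0x430540400c1e00d120804249580431040) (.sg 33 (.leaf 0x43058040041e00c1288c2a89b80431040)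 (.leaf 0x43058040041e00e1288c2a89b80431040)))) (.sR 2176 (.sR 2160 (.sg 33 (.leaf 0x460540800020012128807e0d180461080) (.leaf 0x45054080002001412880a9d3580451080)) (.leaf 0x42058080082001313088d25d880421080)) (.sR 2192 (.leaf 0x420500800c20019120805606380421040) (.sg 33 (.leaf 0x43058040041e0181288c2a89b80431040) (.leaf 0x43054080042001a1288c2a89b80431040))))) (.leaf 0x440600801c1e00213884cb24480441080))) (.sR 2144 (.sR 2112 (.sR 2096 (.leaf 0x4404c040101e011110803379b80441040) (.sr 2752 (.leaf 0x43050000141e0011188c2689580431040) (.leaf 0x43050000141e0051188c2689580431040))) (.leaf 0x44058080181e00312884a327480441080)) (.sR 2208 (.sr 2752 (.sR 2176 (.sR 2160 (.sg 35 (.leaf 0x45054080002000912880a9d3580451080) (.leaf 0x45054080002000b12880a9d3580451080)) (.leaf 0x42058080082000a13088d25d880421080)) (.sR 2192 (.leaf 0x430540400c1e001120804249580431040) (.sg 35 (.leaf 0x43054080042000f1288c2a89b80431040) (.leaf 0x42058040041e0101288c3d97180421040)))) (.sR 2176 (.sR 2160 (.sg 35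 (.leaf 0x45054080002001512880a9d3580451080) (.leaf 0x45058040001e01712880a9d3580451080)) (.leaf 0x4205c040081e01613088d25d880421080)) (.sR 2192 (.leaf 0x430540400c1e005120804249580431040) (.sg 35 (.leaf 0x42058040041e01b1288c3d97180421040) (.leaf 0x42058040041e01c1288c3d97180421040))))) (.leaf 0x440600801c1e00313884cb24480441080)))))))
theorem k167 : ChunkP 5 5 2688 2816 32 36 1920 2240 :=
  chkD_sound (Q := 40) (C := [c3090.c, c3037.c, c3085.c, c3087.c, c3089.c, c3188.c, c3026.c, c3027.c, c3028.c, c3029.c, c3030.c, c3031.c, c3032.c, c3033.c, c3034.c, c3036.c, c3038.c, c3092.c, c3177.c, c3178.c, c3179.c, c3180.c, c3181.c, c3182.c, c3183.c, c3184.c, c3186.c, c3187.c, c3189.c])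
    (T := [f_w536_540_8_45_45d, f_w548_552_4_45_42d, f_w540_544_8_45_35d, f_w544_548_4_45_42d, f_w520_524_4_50_45d, f_w524_528_4_45_35d, f_w528_536_8_60_20d, f_w552_560_8_55_40d, f_w480_488_4_55_50d, f_w488_496_4_60_40d, f_w496_504_4_60_40d, f_w504_512_4_55_45d, f_w512_520_4_55_45d, f_w524_528_4_50_45d]) (t := t167)
    (all_cons p3090 (all_cons p3037 (all_cons p3085 (all_cons p3087 (all_cons p3089 (all_cons p3188 (all_cons p3026 (all_cons p3027 (all_cons p3028 (all_cons p3029 (all_cons p3030 (all_cons p3031 (all_cons p3032 (all_cons p3033 (all_cons p3034 (all_cons p3036 (all_cons p3038 (all_cons p3092 (all_cons p3177 (all_cons p3178 (all_cons p3179 (all_cons p3180 (all_cons p3181 (all_cons p3182 (all_cons p3183 (all_cons p3184 (all_cons p3186 (all_cons p3187 (all_cons p3189 all_nil))))))))))))))))))))))))))))) (all_cons f_w536_540_8_45_45d_p (all_cons f_w548_552_4_45_42d_p (all_cons f_w540_544_8_45_35d_p (all_cons f_w544_548_4_45_42d_p (all_cons f_w520_524_4_50_45d_p (all_cons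 f_w524_528_4_45_35d_p (all_cons f_w528_536_8_60_20d_p (all_cons f_w552_560_8_55_40d_p (all_cons f_w480_488_4_55_50d_p (all_cons f_w488_496_4_60_40d_p (all_cons f_w496_504_4_60_40d_p (all_cons f_w504_512_4_55_45d_p (all_cons f_w512_520_4_55_45d_p (all_cons f_w524_528_4_50_45d_p all_nil))))))))))))))
    (by decide +kernel)
def t168 : Tree := (.sg 38 (.sR 2016 (.sR 1952 (.leaf 0x44c40040301e0010f80000000b8441044) (.sR 1984 (.leaf 0x450440c0481e0011000000000b8449044) (.sR 2000 (.leaf 0x44c44040341e0011000000000b8445044) (.sr 2624 (.leaf 0x454440801c200021080000000ac44d044) (.leaf 0x454440801c200041080000000b044d044))))) (.sR 2048 (.leaf 0x4604c080381e0011100000000b8455044) (.sR 2080 (.leaf 0x4584c0803c1e0011100000000b444d044) (.sR 2096 (.leaf 0x4504c040401e0011100000000b4449044) (.sr 2624 (.sR 2176 (.sR 2112 (.leaf 0x430500002c1e0021188c2689580431040) (.sR 2160 (.sg 37 (.sR 2128 (.leaf 0x40050000181e00c1180000000b0401004) (.sR 2144 (.leaf 0x40050000041e00c1180000000b0401004) (.leaf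 0x460540800c20019128807e0d180461080))) (.sR 2128 (.leaf 0x4805008020200081207c7d29980481080) (.sR 2144 (.leaf 0x40050000041e01f1180000000b4401004) (.leaf 0x460540800c20008128807e0d180461080)))) (.leaf 0x4505808010200071308891c7980451080))) (.sR 2208 (.sR 2192 (.leaf 0x45054040141e00212080281a380451040) (.sg 37 (.leaf 0x44054080082001d1288c182cd80441040) (.leaf 0x43054080082001e1288c2a89b80431040))) (.sR 2224 (.leaf 0x40064040281e00714095010af80401080) (.sg 37 (.sr 2592 (.leaf 0x4405c0400020016138a415cc980441040) (.leaf 0x410580400020021130944a0c680411040)) (.sr 2592 (.leaf 0x410580400020017130944a0c680411040) (.leaf 0x4205804000200221309437f0c80421040)))))) (.sR 2176 (.sR 2112 (.leaf 0x430500002c1e0041188c2689580431040) (.sR 2160 (.sg 37 (.sR 2128 (.leaf 0x40050000181e0151180000000b4401004) (.sR 2144 (.leaf 0x40050000041e0151180000000b0401004) (.leaf 0x450540800c2002c12880a9d3580451080))) (.sR 2128 (.leaf 0x48054040201e0101207c7d29980481080) (.sR 2144 (.leaf 0x40050000041e0311180000000b4401004)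 (.leaf 0x460580400c1e010128807e0d180461080)))) (.leaf 0x4505c040101e00f1308891c7980451080))) (.sR 2208 (.sR 2192 (.leaf 0x44054040141e004120803120680441040) (.sg 37 (.leaf 0x42058040081e02f1288c3d97180421040) (.leaf 0x43058040081e0301288c2a89b80431040))) (.sR 2224 (.leaf 0x41068040281e00f1489cf527780411080) (.sg 37 (.sr 2656 (.leaf 0x4205804000200261309437f0c80421040) (.leaf 0x4205804000200321309437f0c80421040)) (.sr 2656 (.leaf 0x4205804000200271309437f0c80421040) (.leaf 0x4305c000001e03313094268d880431040))))))))))) (.sR 2016 (.sR 1952 (.leaf 0x44c40040301e0000f80000000b8441044) (.sR 1984 (.sR 1968 (.leaf 0x45044040441e0001000000000b444d044) (.leaf 0x450440404c1e0001000000000b4449044)) (.sR 2000 (.leaf 0x44c44040341e0001000000000b8445044) (.sr 2624 (.leaf 0x454480401c1e00a1080000000ac44d044) (.leaf 0x454440801c200131080000000b444d044))))) (.sR 2048 (.leaf 0x4604c080381e0001100000000b8455044) (.sR 2080 (.leaf 0x4584c0803c1e0001100000000b444d044) (.sR 2096 (.leaf 0x4504c040401e0001100000000b4449044)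 (.sr 2624 (.sR 2208 (.sR 2112 (.leaf 0x440500002c1e00a1188c13fab80441040) (.sg 39 (.sR 2160 (.sR 2128 (.leaf 0x40050000181e00d1180000000b4401004) (.sR 2144 (.leaf 0x40050000041e00d1180000000b4401004) (.sr 2592 (.leaf 0x4205004024200051208c3b9f480421040) (.leaf 0x4205004024200241208c3b9f480421040)))) (.sR 2176 (.leaf 0x42058080102001a13088d25d880421080) (.sR 2192 (.leaf 0x43058040141e009128902438980431040) (.leaf 0x44058040081e0091288c182cd80441040)))) (.sR 2160 (.sR 2128 (.sr 2592 (.leaf 0x40050000181e0181180000000b0401004) (.leaf 0x40050000181e0251180000000b0401004)) (.sR 2144 (.leaf 0x40050000041e0201180000000b4401004) (.sr 2592 (.leaf 0x4205004024200061208c3b9f480421040) (.leaf 0x43054000241e00e1208c287e580431040)))) (.sR 2176 (.leaf 0x43058080102001c13088bcb3880431080) (.sR 2192 (.leaf 0x44058040141e00b1289013fb580441040) (.leaf 0x45058040081e00b1288c072f080451040)))))) (.sR 2224 (.leaf 0x44064040281e01b14094b30b680441080) (.sg 39 (.sr 2592 (.leaf 0x4205804000200051309437f0c80421040)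 (.leaf 0x4305c000001e02313094268d880431040)) (.sr 2592 (.leaf 0x44058040002000613094164aa80441040) (.leaf 0x4505c000001e00e13094086a680451040))))) (.sR 2208 (.sR 2112 (.leaf 0x44050040501e0131188c13fab80441040) (.sg 39 (.sR 2160 (.sR 2128 (.leaf 0x48054040201e0031207c7d29980481080) (.sR 2144 (.sr 2656 (.leaf 0x40050000041e02a1180000000b0401004) (.leaf 0x40050000041e0361180000000b0401004)) (.leaf 0x460580400c1e003128807e0d180461080))) (.sR 2176 (.leaf 0x4205c040101e00313088d25d880421080) (.sR 2192 (.leaf 0x43058040141e012128902438980431040) (.leaf 0x43058040081e0121288c2a89b80431040)))) (.sR 2160 (.sR 2128 (.leaf 0x4805008020200111207c7d29980481080) (.sR 2144 (.sr 2656 (.leaf 0x40050000041e02b1180000000b0401004) (.leaf 0x40050000041e0371180000000b0401004)) (.leaf 0x450580400c1e02e12880a9d3580451080))) (.sR 2176 (.leaf 0x42058080102001113088d25d880421080) (.sR 2192 (.leaf 0x44058040141e0141289013fb580441040) (.leaf 0x44058040081e0141288c182cd80441040)))))) (.sR 2224 (.leaf 0x42068040281e02d1489ce4a8f80421080)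 (.sg 39 (.sr 2656 (.leaf 0x4305c000001e02813094268d880431040) (.leaf 0x4405c000001e03413094164aa80441040)) (.sr 2656 (.leaf 0x43058000001e0291288042d6f80431040) (.leaf 0x43058000001e0351288042d6f80431040)))))))))))
theorem k168 : ChunkP 5 5 2560 2688 36 40 1920 2240 :=
  chkD_sound (Q := 40) (C := [c2744.c, c2742.c, c2690.c, c2929.c, c2935.c, c2652.c, c2654.c, c2683.c, c2684.c, c2693.c, c2694.c, c2695.c, c2696.c, c2700.c, c2863.c, c2926.c, c2927.c, c2933.c, c2937.c, c2938.c, c2939.c, c2940.c, c2649.c, c2650.c, c2658.c, c2682.c, c2685.c, c2686.c, c2688.c, c2689.c, c2692.c, c2698.c, c2702.c, c2859.c, c2860.c, c2861.c, c2862.c, c2867.c, c2896.c, c2898.c, c2899.c, c2900.c, c2903.c, c2904.c, c2925.c, c2931.c, c2932.c, c2934.c, c2936.c, c2942.c, c2979.c, c2980.c, c2981.c, c2982.c, c2985.c, c2986.c])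
    (T := [f_w556_560_4_42_36d, f_w532_536_0_45_35d, f_w548_552_4_45_42d, f_w536_540_8_45_45d, f_w540_544_8_45_35d, f_w544_548_4_45_42d, f_w528_532_0_45_35d, f_w500_504_4_40_45d, f_w528_532_8_45_45d, f_w536_540_4_42_42d, f_w552_556_8_50_35d, f_w524_528_4_45_35d, f_w480_488_4_40_40d, f_w496_500_4_40_45d, f_w504_512_4_55_45d, f_w512_520_4_55_45d, f_w520_524_4_50_45d, f_w488_492_4_40_45d, f_w488_496_4_60_40d, f_w492_496_4_40_45d, f_w524_528_4_50_45d]) (t := t168)
    (all_cons p2744 (all_cons p2742 (all_cons p2690 (all_cons p2929 (all_cons p2935 (all_cons p2652 (all_cons p2654 (all_cons p2683 (all_cons p2684 (all_cons p2693 (all_cons p2694 (all_cons p2695 (all_cons p2696 (all_cons p2700 (all_cons p2863 (all_cons p2926 (all_cons p2927 (all_cons p2933 (all_cons p2937 (all_cons p2938 (all_cons p2939 (all_cons p2940 (all_cons p2649 (all_cons p2650 (all_cons p2658 (all_cons p2682 (all_cons p2685 (all_cons p2686 (all_cons p2688 (all_cons p2689 (all_cons p2692 (all_cons p2698 (all_cons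 p2702 (all_cons p2859 (all_cons p2860 (all_cons p2861 (all_cons p2862 (all_cons p2867 (all_cons p2896 (all_cons p2898 (all_cons p2899 (all_cons p2900 (all_cons p2903 (all_cons p2904 (all_cons p2925 (all_cons p2931 (all_cons p2932 (all_cons p2934 (all_cons p2936 (all_cons p2942 (all_cons p2979 (all_cons p2980 (all_cons p2981 (all_cons p2982 (all_cons p2985 (all_cons p2986 all_nil)))))))))))))))))))))))))))))))))))))))))))))))))))))))) (all_cons f_w556_560_4_42_36d_p (all_cons f_w532_536_0_45_35d_p (all_cons f_w548_552_4_45_42d_p (all_cons f_w536_540_8_45_45d_p (all_cons f_w540_544_8_45_35d_p (all_cons f_w544_548_4_45_42d_p (all_cons f_w528_532_0_45_35d_p (all_cons f_w500_504_4_40_45d_p (all_cons f_w528_532_8_45_45d_p (all_cons f_w536_540_4_42_42d_p (all_cons f_w552_556_8_50_35d_p (all_cons f_w524_528_4_45_35d_p (all_cons f_w480_488_4_40_40d_p (all_cons f_w496_500_4_40_45d_p (all_cons f_w504_512_4_55_45d_p (all_cons f_w512_520_4_55_45d_p (all_cons f_w520_524_4_50_45d_p (all_cons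 f_w488_492_4_40_45d_p (all_cons f_w488_496_4_60_40d_p (all_cons f_w492_496_4_40_45d_p (all_cons f_w524_528_4_50_45d_p all_nil)))))))))))))))))))))
    (by decide +kernel)
def t169 : Tree := (.sR 2016 (.sR 1952 (.leaf 0x44c40080381e0010f80000000b8441044) (.sg 38 (.sR 1984 (.leaf 0x464480c0281e0001080000000b0455044) (.leaf 0x46c4c0c02c1e0001100000000b845d044)) (.sR 1984 (.leaf 0x450440c0281e0021000000000b0449044) (.leaf 0x458480c02c1e0021080000000b444d044)))) (.sR 2048 (.leaf 0x450480803c1e0011080000000b8449044) (.sR 2080 (.leaf 0x4584c080401e0011100000000b444d044) (.sg 38 (.sR 2208 (.sR 2096 (.leaf 0x4504c040301e0001100000000b4449044) (.sr 2752 (.sR 2160 (.sR 2112 (.leaf 0x44050000441e00a1188c13fab80441040) (.sg 37 (.sR 2128 (.leaf 0x47054040081e0061207ca4ada80471080) (.sR 2144 (.leaf 0x40050000041e0201180000000b4401004) (.leaf 0x45058040101e00612880a9d3580451080))) (.sR 2128 (.leaf 0x47054040081e0071207ca4ada80471080) (.sR 2144 (.sr 2720 (.leaf 0x40050000041e0181180000000b0401004)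 (.leaf 0x40050000041e0271180000000b0401004)) (.leaf 0x45058040101e00712880a9d3580451080))))) (.sR 2176 (.leaf 0x4505c040181e01b1308891c7980451080) (.sR 2192 (.leaf 0x44054040141e00a120803120680441040) (.sg 37 (.leaf 0x420580400c1e01d1288c3d97180421040) (.leaf 0x420580400c1e01e1288c3d97180421040))))) (.sR 2160 (.sR 2112 (.leaf 0x430540401c1e0111209c1b81980431040) (.sg 37 (.sR 2128 (.leaf 0x47054040081e00e1207ca4ada80471080) (.sR 2144 (.sr 2784 (.leaf 0x40050000041e02c1180000000b0401004) (.leaf 0x40050000041e0371180000000b0401004)) (.leaf 0x45058040101e00e12880a9d3580451080))) (.sR 2128 (.leaf 0x47054040081e00f1207ca4ada80471080) (.sR 2144 (.sr 2784 (.leaf 0x40050000041e02d1180000000b0401004) (.leaf 0x40050000041e0381180000000b0401004)) (.leaf 0x45058040101e00f12880a9d3580451080))))) (.sR 2176 (.leaf 0x4305c040181e02f13088bcb3880431080) (.sR 2192 (.leaf 0x45054040141e01112080281a380451040) (.sg 37 (.leaf 0x420580400c1e0321288c3d97180421040) (.leaf 0x420580400c1e0331288c3d97180421040)))))))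 (.sR 2224 (.leaf 0x44064040341e02114094b30b680441080) (.sr 2752 (.sg 37 (.sr 2720 (.leaf 0x4305c000001e01413094268d880431040) (.leaf 0x4305c000001e02313094268d880431040)) (.sr 2720 (.leaf 0x4405c000001e01513094164aa80441040) (.leaf 0x4405c000001e02413094164aa80441040))) (.sg 37 (.sr 2784 (.leaf 0x4405c000001e02a13094164aa80441040) (.leaf 0x4505c000001e03513094086a680451040)) (.sr 2784 (.leaf 0x43058000001e02b1288042d6f80431040) (.leaf 0x44058000001e0361288030ca780441040)))))) (.sR 2208 (.sR 2096 (.leaf 0x4504c040301e0021100000000b4449044) (.sr 2752 (.sR 2160 (.sR 2112 (.leaf 0x450540401c1e01f1209c0692580451040) (.sg 39 (.sR 2128 (.leaf 0x47054040081e0081207ca4ada80471080) (.sR 2144 (.sr 2720 (.leaf 0x40050000041e0191180000000b0401004) (.leaf 0x40050000041e0281180000000b0401004)) (.leaf 0x45058040101e00812880a9d3580451080))) (.sR 2128 (.leaf 0x45058040081e0091288c8822e80451080) (.sR 2144 (.sr 2720 (.leaf 0x40050000041e01a1180000000b0401004) (.leaf 0x40050000041e0291180000000b4401004))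 (.leaf 0x45058040101e00912880a9d3580451080))))) (.sR 2176 (.leaf 0x4405c040181e01c13088a726c80441080) (.sg 39 (.sR 2192 (.leaf 0x44058040141e00b1289013fb580441040) (.leaf 0x440580400c1e00b1288c182cd80441040)) (.sR 2192 (.leaf 0x43058040141e00c128902438980431040) (.leaf 0x430580400c1e00c1288c2a89b80431040))))) (.sR 2144 (.sR 2112 (.leaf 0x430540401c1e0341209c1b81980431040) (.sg 39 (.sR 2128 (.leaf 0x45058040081e0301288c8822e80451080) (.sr 2784 (.leaf 0x40050000041e02e1180000000b0401004) (.sR 2136 (.leaf 0x44054040201e00412094109ac80441040) (.leaf 0x44054040241e0041209011b8d80441040)))) (.sR 2128 (.leaf 0x44058040081e0311288c9d3f280441080) (.sr 2784 (.sR 2136 (.leaf 0x43054040201e003120941fafd80431040) (.leaf 0x43054040241e0031209021f1180431040)) (.sR 2136 (.leaf 0x43054040201e005120941fafd80431040) (.leaf 0x43054040241e0051209021f1180431040)))))) (.sR 2160 (.leaf 0x46058040101e010128807e0d180461080) (.sR 2176 (.leaf 0x4405c040181e01013088a726c80441080) (.sg 39 (.sR 2192 (.leaf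 0x42058040141e0121289035a7080421040) (.leaf 0x420580400c1e0121288c3d97180421040)) (.sR 2192 (.leaf 0x42058040141e0131289035a7080421040) (.leaf 0x4505c0400c1e013130a009dfb80451040)))))))) (.sR 2224 (.leaf 0x45060040341e022138889bb2380451080) (.sr 2752 (.sg 39 (.sr 2720 (.leaf 0x43058000001e0161288042d6f80431040) (.leaf 0x43058000001e0251288042d6f80431040)) (.sr 2720 (.leaf 0x44058000001e0171288030ca780441040) (.leaf 0x44058000001e0261288030ca780441040))) (.sg 39 (.sr 2784 (.sR 2232 (.leaf 0x4505c080482000d138889e05d80451080) (.leaf 0x4405c0404c2000d13884b723f80441080)) (.leaf 0x44058000001e0041288030ca780441040)) (.sr 2784 (.leaf 0x44058000001e0031288030ca780441040) (.leaf 0x44058000001e0051288030ca780441040))))))))))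
theorem k169 : ChunkP 5 5 2688 2816 36 40 1920 2240 :=
  chkD_sound (Q := 40) (C := [c3093.c, c3094.c, c3095.c, c3163.c, c3237.c, c3238.c, c3032.c, c3034.c, c3035.c, c3038.c, c3040.c, c3042.c, c3044.c, c3159.c, c3183.c, c3185.c, c3188.c, c3191.c, c3193.c, c3195.c, c3007.c, c3008.c, c3009.c, c3010.c, c3012.c, c3013.c, c3014.c, c3033.c, c3037.c, c3039.c, c3041.c, c3043.c, c3045.c, c3089.c, c3092.c, c3131.c, c3132.c, c3133.c, c3134.c, c3136.c, c3137.c, c3138.c, c3160.c, c3161.c, c3164.c, c3165.c, c3166.c, c3184.c, c3187.c, c3189.c, c3190.c, c3192.c, c3194.c, c3235.c, c3236.c, c3239.c, c3240.c])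
    (T := [f_w556_560_4_42_36d, f_w532_536_0_45_35d, f_w528_532_8_45_45d, f_w548_552_4_45_42d, f_w536_540_8_45_45d, f_w544_548_4_45_42d, f_w540_544_8_45_35d, f_w524_528_4_50_45d, f_w532_534_4_42_42d, f_w534_536_4_42_42d, f_w488_496_4_60_40d, f_w496_504_4_60_40d, f_w520_524_4_50_45d, f_w552_556_8_50_35d, f_w480_488_4_55_50d, f_w504_512_4_55_45d, f_w512_520_4_55_45d, f_w524_528_4_45_35d, f_w556_558_8_42_45d, f_w558_560_8_42_42d]) (t := t169)
    (all_cons p3093 (all_cons p3094 (all_cons p3095 (all_cons p3163 (all_cons p3237 (all_cons p3238 (all_cons p3032 (all_cons p3034 (all_cons p3035 (all_cons p3038 (all_cons p3040 (all_cons p3042 (all_cons p3044 (all_cons p3159 (all_cons p3183 (all_cons p3185 (all_cons p3188 (all_cons p3191 (all_cons p3193 (all_cons p3195 (all_cons p3007 (all_cons p3008 (all_cons p3009 (all_cons p3010 (all_cons p3012 (all_cons p3013 (all_cons p3014 (all_cons p3033 (all_cons p3037 (all_cons p3039 (all_cons p3041 (all_cons p3043 (all_cons p3045 (all_cons p3089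 (all_cons p3092 (all_cons p3131 (all_cons p3132 (all_cons p3133 (all_cons p3134 (all_cons p3136 (all_cons p3137 (all_cons p3138 (all_cons p3160 (all_cons p3161 (all_cons p3164 (all_cons p3165 (all_cons p3166 (all_cons p3184 (all_cons p3187 (all_cons p3189 (all_cons p3190 (all_cons p3192 (all_cons p3194 (all_cons p3235 (all_cons p3236 (all_cons p3239 (all_cons p3240 all_nil))))))))))))))))))))))))))))))))))))))))))))))))))))))))) (all_cons f_w556_560_4_42_36d_p (all_cons f_w532_536_0_45_35d_p (all_cons f_w528_532_8_45_45d_p (all_cons f_w548_552_4_45_42d_p (all_cons f_w536_540_8_45_45d_p (all_cons f_w544_548_4_45_42d_p (all_cons f_w540_544_8_45_35d_p (all_cons f_w524_528_4_50_45d_p (all_cons f_w532_534_4_42_42d_p (all_cons f_w534_536_4_42_42d_p (all_cons f_w488_496_4_60_40d_p (all_cons f_w496_504_4_60_40d_p (all_cons f_w520_524_4_50_45d_p (all_cons f_w552_556_8_50_35d_p (all_cons f_w480_488_4_55_50d_p (all_cons f_w504_512_4_55_45d_p (all_cons f_w512_520_4_55_45d_p (all_cons f_w524_528_4_45_35d_p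 (all_cons f_w556_558_8_42_45d_p (all_cons f_w558_560_8_42_42d_p all_nil))))))))))))))))))))
    (by decide +kernel)
def t170 : Tree := (.sr 2944 (.sR 2048 (.sR 1984 (.sR 1952 (.leaf 0x45c44080181e0001000000000b044d044) (.leaf 0x464480c01c1e0001080000000ac455044)) (.sR 2016 (.leaf 0x46c4c0c0201e0001100000000b845d044) (.leaf 0x4604c080241e0001100000000b8455044))) (.sR 2112 (.sR 2080 (.leaf 0x4584c080281e0001100000000b444d044) (.sg 34 (.sR 2096 (.leaf 0x44050040101e004118900f82e80441040) (.leaf 0x43050040141e0041188c2689580431040)) (.sR 2096 (.leaf 0x4304c040101e005110804217780431040) (.leaf 0x44050040141e0051188c13fab80441040)))) (.sR 2144 (.leaf 0x430580802c1e00312884dfa3480431080) (.sR 2208 (.sg 34 (.sr 2880 (.sR 2176 (.sR 2160 (.sg 33 (.leaf 0x45054080002000e12880a9d3580451080) (.leaf 0x45054080002001012880a9d3580451080)) (.leaf 0x42058080082000f13088d25d880421080)) (.sR 2192 (.leaf 0x420540400c1e002120805606380421040) (.leaf 0x44054040041e0021207c70a1a80441040))) (.sR 2176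 (.sR 2160 (.sg 33 (.leaf 0x45054080002001712880a9d3580451080) (.leaf 0x45054080002001912880a9d3580451080)) (.leaf 0x42058080082001813088d25d880421080)) (.sR 2192 (.leaf 0x420540400c1e007120805606380421040) (.leaf 0x44054040041e0071207c70a1a80441040)))) (.sr 2880 (.sR 2176 (.sR 2160 (.sg 35 (.leaf 0x45058040001e01112880a9d3580451080) (.leaf 0x45058040001e01312880a9d3580451080)) (.leaf 0x4205c040081e01213088d25d880421080)) (.sR 2192 (.leaf 0x430540400c1e015120804249580431040) (.sg 35 (.leaf 0x42058040041e0141288c3d97180421040) (.leaf 0x42058040041e0161288c3d97180421040)))) (.sR 2176 (.sR 2160 (.leaf 0x46058040001e006128807e0d180461080) (.leaf 0x42058080082000613088d25d880421080)) (.sR 2192 (.leaf 0x430540400c1e01b120804249580431040) (.sg 35 (.leaf 0x42058040041e01a1288c3d97180421040) (.leaf 0x42058040041e01c1288c3d97180421040)))))) (.leaf 0x44060080301e00313884cb24480441080))))) (.sR 2048 (.sR 1984 (.sR 1952 (.leaf 0x45c44080181e0011000000000a844d044) (.leaf 0x464480c01c1e0011080000000ac455044))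 (.sR 2016 (.leaf 0x46c4c0c0201e0011100000000b845d044) (.leaf 0x4604c080241e0011100000000b8455044))) (.sR 2112 (.sR 2080 (.leaf 0x43050040281c00111084307dd80431040) (.sg 34 (.sR 2096 (.leaf 0x43050040101e00a118901fb7080431040) (.leaf 0x43050040141e00a1188c2689580431040)) (.sR 2096 (.leaf 0x43050040101e00b118901fb7080431040) (.leaf 0x43050040141e00b1188c2689580431040)))) (.sR 2144 (.leaf 0x400600402c1c00913090ef4f080401080) (.sR 2208 (.sg 34 (.sR 2176 (.sr 3008 (.sR 2160 (.sg 33 (.leaf 0x45054080002001d12880a9d3580451080) (.leaf 0x45054080002001f12880a9d3580451080)) (.leaf 0x42058080082001e13088d25d880421080)) (.sR 2160 (.sg 33 (.leaf 0x45054080002002412880a9d3580451080) (.leaf 0x45054080002002612880a9d3580451080)) (.leaf 0x42058080082002513088d25d880421080))) (.leaf 0x40058040341c023120841d5f380401000)) (.sr 3008 (.sR 2176 (.sR 2160 (.leaf 0x46058040001e008128807e0d180461080) (.leaf 0x43058080082000813088bcb3880431080)) (.sR 2192 (.leaf 0x430540400c1e021120804249580431040) (.sg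 35 (.leaf 0x4205408004200201288c3d97180421040) (.leaf 0x42058040041e0221288c3d97180421040)))) (.sR 2176 (.sR 2160 (.leaf 0x45058040001e00c12880a9d3580451080) (.leaf 0x43058080082000c13088bcb3880431080)) (.sR 2192 (.leaf 0x430540400c1e00d120804249580431040) (.leaf 0x45058040041e00d1288c072f080451040))))) (.leaf 0x40068040301c00914091061b880401080))))))
theorem k170 : ChunkP 5 5 2816 3072 32 36 1920 2240 :=
  chkD_sound (Q := 40) (C := [c3328.c, c3545.c, c3275.c, c3324.c, c3326.c, c3330.c, c3433.c, c3434.c, c3495.c, c3541.c, c3544.c, c3546.c, c3577.c, c3579.c, c3269.c, c3270.c, c3271.c, c3272.c, c3273.c, c3274.c, c3276.c, c3277.c, c3278.c, c3430.c, c3431.c, c3432.c, c3435.c, c3436.c, c3437.c, c3492.c, c3493.c, c3494.c, c3497.c, c3498.c, c3499.c, c3547.c, c3574.c, c3575.c, c3576.c])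
    (T := [f_w536_540_8_45_45d, f_w548_552_4_45_42d, f_w540_544_8_45_35d, f_w544_548_4_45_42d, f_w520_524_4_50_45d, f_w524_528_4_50_45d, f_w480_488_4_55_50d, f_w488_496_4_60_40d, f_w496_504_4_60_40d, f_w504_512_4_55_45d, f_w512_520_4_55_45d, f_w528_536_8_60_20d, f_w552_560_8_55_40d, f_w544_552_0_60_20d]) (t := t170)
    (all_cons p3328 (all_cons p3545 (all_cons p3275 (all_cons p3324 (all_cons p3326 (all_cons p3330 (all_cons p3433 (all_cons p3434 (all_cons p3495 (all_cons p3541 (all_cons p3544 (all_cons p3546 (all_cons p3577 (all_cons p3579 (all_cons p3269 (all_cons p3270 (all_cons p3271 (all_cons p3272 (all_cons p3273 (all_cons p3274 (all_cons p3276 (all_cons p3277 (all_cons p3278 (all_cons p3430 (all_cons p3431 (all_cons p3432 (all_cons p3435 (all_cons p3436 (all_cons p3437 (all_cons p3492 (all_cons p3493 (all_cons p3494 (all_cons p3497 (all_cons p3498 (all_cons p3499 (all_cons p3547 (all_cons p3574 (all_cons p3575 (all_cons p3576 all_nil)))))))))))))))))))))))))))))))))))))))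 (all_cons f_w536_540_8_45_45d_p (all_cons f_w548_552_4_45_42d_p (all_cons f_w540_544_8_45_35d_p (all_cons f_w544_548_4_45_42d_p (all_cons f_w520_524_4_50_45d_p (all_cons f_w524_528_4_50_45d_p (all_cons f_w480_488_4_55_50d_p (all_cons f_w488_496_4_60_40d_p (all_cons f_w496_504_4_60_40d_p (all_cons f_w504_512_4_55_45d_p (all_cons f_w512_520_4_55_45d_p (all_cons f_w528_536_8_60_20d_p (all_cons f_w552_560_8_55_40d_p (all_cons f_w544_552_0_60_20d_p all_nil))))))))))))))
    (by decide +kernel)
def t171 : Tree := (.sr 2944 (.sR 2016 (.sR 1952 (.leaf 0x44c400801c1e0000f80000000b8441044) (.sR 1984 (.leaf 0x450440c0201e0001000000000b0449044) (.leaf 0x458480c0241e0001080000000ac44d044))) (.sR 2080 (.sR 2048 (.leaf 0x4604c080281e0001100000000b8455044) (.leaf 0x4584c0802c1e0001100000000b444d044)) (.sR 2208 (.sg 38 (.sR 2112 (.sR 2096 (.leaf 0x4404c040141e01c110803379b80441040) (.sr 2880 (.leaf 0x41054040101e0041209c38a0880411040) (.leaf 0x41054040101e0091209c38a0880411040))) (.sR 2144 (.leaf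 0x4205c080181e01913090c796c80421080) (.sr 2880 (.sR 2176 (.sR 2160 (.leaf 0x45058040081e00212880a9d3580451080) (.leaf 0x4305c0400c1e00213088bcb3880431080)) (.sR 2192 (.leaf 0x44054040041e004120803120680441040) (.sg 37 (.leaf 0x42058040001e0161288c3d97180421040) (.leaf 0x42058040001e0171288c3d97180421040)))) (.sR 2176 (.sR 2160 (.leaf 0x45058040081e00712880a9d3580451080) (.leaf 0x4305c0400c1e00713088bcb3880431080)) (.sR 2192 (.leaf 0x44054040041e009120803120680441040) (.sg 37 (.leaf 0x42058040001e01e1288c3d97180421040) (.leaf 0x4405c040001e01f130a0137e080441040))))))) (.sR 2112 (.sR 2096 (.leaf 0x4504c040141e01d1100000000b4449044) (.sr 2880 (.leaf 0x42054040101e0181209c2981880421040) (.leaf 0x42054040101e0201209c2981880421040))) (.sR 2144 (.leaf 0x43058080181e01b12884dfa3480431080) (.sr 2880 (.sR 2160 (.leaf 0x46058040081e003128807e0d180461080) (.sR 2176 (.leaf 0x4505c0400c1e0031308891c7980451080) (.sg 39 (.sR 2192 (.leaf 0x42058040041e0051289035a7080421040) (.leaf 0x4405c040001e005130a0137e080441040))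 (.sR 2192 (.leaf 0x42058040041e0061289035a7080421040) (.leaf 0x4405c040001e006130a0137e080441040))))) (.sR 2160 (.leaf 0x45058040081e00812880a9d3580451080) (.sR 2176 (.leaf 0x4505c0400c1e0081308891c7980451080) (.sg 39 (.sR 2192 (.leaf 0x42058040041e00a1289035a7080421040) (.leaf 0x4405c040001e00a130a0137e080441040)) (.sR 2192 (.leaf 0x43058040041e00b128902438980431040) (.leaf 0x43058040001e00b1288c2a89b80431040))))))))) (.leaf 0x45064040301c01a13884a0c3d80451080)))) (.sR 2048 (.sR 1984 (.sR 1952 (.leaf 0x45c480401c1c0011000000000b844d044) (.leaf 0x4644c080201c0011080000000ac455044)) (.sR 2016 (.leaf 0x46c50080241c0011100000000b845d044) (.leaf 0x46050040281c0011100000000b8455044))) (.sR 2112 (.sR 2080 (.leaf 0x458500402c1c0011100000000b444d044) (.sg 38 (.sR 2096 (.leaf 0x45050040141e01111890036e580451040) (.leaf 0x43050040101e0111188c2689580431040)) (.sR 2096 (.leaf 0x44050000141c012110803379b80441040) (.leaf 0x44054000101c0121188c13fab80441040)))) (.sR 2144 (.leaf 0x43060040181c01013090b3afb80431080)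 (.sR 2208 (.sg 38 (.sr 3008 (.sR 2176 (.sR 2160 (.leaf 0x45058040081e00c12880a9d3580451080) (.leaf 0x4305c0400c1e00c13088bcb3880431080)) (.sR 2192 (.leaf 0x44054040041e022120803120680441040) (.sg 37 (.leaf 0x4505c040001e021130a009dfb80451040) (.leaf 0x4405c040001e023130a0137e080441040)))) (.sR 2176 (.sR 2160 (.leaf 0x45058040081e01312880a9d3580451080) (.leaf 0x4405c0400c1e01313088a726c80441080)) (.sR 2192 (.leaf 0x44054040041e025120803120680441040) (.sg 37 (.leaf 0x4405c040001e024130a0137e080441040) (.leaf 0x4405c040001e026130a0137e080441040))))) (.sr 3008 (.sR 2160 (.leaf 0x45058040081e00d12880a9d3580451080) (.sR 2176 (.leaf 0x4405c0400c1e00d13088a726c80441080) (.sg 39 (.sR 2192 (.leaf 0x42058040041e00e1289035a7080421040) (.leaf 0x4405c040001e00e130a0137e080441040)) (.sR 2192 (.leaf 0x43058040041e00f128902438980431040) (.leaf 0x4405c040001e00f130a0137e080441040))))) (.sR 2176 (.sR 2160 (.leaf 0x4605c040081e0141308c79e9180461080) (.leaf 0x4305c0400c1e01413088bcb3880431080))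 (.sR 2192 (.leaf 0x44054040041e015120803120680441040) (.leaf 0x45058040001e0151288c072f080451040))))) (.leaf 0x4306c040301c01014898d3f0a80431080))))))
theorem k171 : ChunkP 5 5 2816 3072 36 40 1920 2240 :=
  chkD_sound (Q := 40) (C := [c3332.c, c3548.c, c3275.c, c3277.c, c3280.c, c3282.c, c3284.c, c3434.c, c3436.c, c3439.c, c3441.c, c3443.c, c3496.c, c3498.c, c3503.c, c3505.c, c3545.c, c3547.c, c3549.c, c3578.c, c3579.c, c3583.c, c3279.c, c3281.c, c3283.c, c3326.c, c3328.c, c3330.c, c3331.c, c3334.c, c3438.c, c3440.c, c3442.c, c3500.c, c3501.c, c3502.c, c3580.c, c3581.c, c3582.c])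
    (T := [f_w548_552_4_45_42d, f_w544_548_4_45_42d, f_w536_540_8_45_45d, f_w540_544_8_45_35d, f_w524_528_4_50_45d, f_w520_524_4_50_45d, f_w528_536_8_60_20d, f_w480_488_4_55_50d, f_w488_496_4_60_40d, f_w496_504_4_60_40d, f_w504_512_4_55_45d, f_w512_520_4_55_45d, f_w552_560_8_55_40d]) (t := t171)
    (all_cons p3332 (all_cons p3548 (all_cons p3275 (all_cons p3277 (all_cons p3280 (all_cons p3282 (all_cons p3284 (all_cons p3434 (all_cons p3436 (all_cons p3439 (all_cons p3441 (all_cons p3443 (all_cons p3496 (all_cons p3498 (all_cons p3503 (all_cons p3505 (all_cons p3545 (all_cons p3547 (all_cons p3549 (all_cons p3578 (all_cons p3579 (all_cons p3583 (all_cons p3279 (all_cons p3281 (all_cons p3283 (all_cons p3326 (all_cons p3328 (all_cons p3330 (all_cons p3331 (all_cons p3334 (all_cons p3438 (all_cons p3440 (all_cons p3442 (all_cons p3500 (all_cons p3501 (all_cons p3502 (all_cons p3580 (all_cons p3581 (all_cons p3582 all_nil))))))))))))))))))))))))))))))))))))))) (all_cons f_w548_552_4_45_42d_p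 (all_cons f_w544_548_4_45_42d_p (all_cons f_w536_540_8_45_45d_p (all_cons f_w540_544_8_45_35d_p (all_cons f_w524_528_4_50_45d_p (all_cons f_w520_524_4_50_45d_p (all_cons f_w528_536_8_60_20d_p (all_cons f_w480_488_4_55_50d_p (all_cons f_w488_496_4_60_40d_p (all_cons f_w496_504_4_60_40d_p (all_cons f_w504_512_4_55_45d_p (all_cons f_w512_520_4_55_45d_p (all_cons f_w552_560_8_55_40d_p all_nil)))))))))))))
    (by decide +kernel)
def t172 : Tree := (.sg 42 (.sR 2016 (.sR 1952 (.leaf 0x44c40040401e0000f80000000b8441044) (.sR 1984 (.sR 1968 (.leaf 0x45044040441e0001000000000b444d044) (.leaf 0x45044040481e0001000000000b4449044)) (.sR 2000 (.leaf 0x44c440404c1e0001000000000b8445044) (.sr 2624 (.leaf 0x454480403c1e0301080000000ac44d044) (.leaf 0x454480403c1e0281080000000ac44d044))))) (.sR 2048 (.leaf 0x45048080641e0001080000000b8449044) (.sR 2080 (.sR 2064 (.leaf 0x4584c040581e0001100000000b4451044) (.sr 2624 (.sg 41 (.leaf 0x4544c040181e00b1100000000b444d044) (.leaf 0x4544808018200311100000000b444d044))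 (.sg 41 (.leaf 0x4544c040181e0121100000000b444d044) (.leaf 0x4544c040181e0131100000000b444d044)))) (.sR 2096 (.leaf 0x4504c0405c1e0001100000000b4449044) (.sr 2624 (.sR 2208 (.sg 41 (.sR 2160 (.sR 2112 (.leaf 0x42050000301e00b1188c39be180421040) (.sr 2592 (.sR 2128 (.leaf 0x40050000381e01a1180000000b0401004) (.sR 2144 (.leaf 0x40050000041e01a1180000000b0401004) (.leaf 0x43054000601e0081208c287e580431040))) (.sR 2128 (.leaf 0x40050000381e0241180000000b0401004) (.sR 2144 (.leaf 0x40050000041e0241180000000b0401004) (.leaf 0x43054000601e00c1208c287e580431040))))) (.sR 2176 (.leaf 0x43058080082002e13088bcb3880431080) (.sR 2192 (.leaf 0x43054040141e00b120804249580431040) (.sr 2592 (.leaf 0x4305c040001e008130a02034880431040) (.leaf 0x4205c040001e00c130a02e5d780421040))))) (.sR 2160 (.sR 2112 (.leaf 0x44050000301e01f1188c13fab80441040) (.sR 2144 (.sr 2592 (.sR 2128 (.leaf 0x40050000381e01b1180000000b0401004) (.leaf 0x40050000041e01b1180000000b0401004)) (.sR 2128 (.leaf 0x40050000381e0251180000000b0401004)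 (.leaf 0x40050000041e0251180000000b0401004))) (.leaf 0x46058040281e01d128807e0d180461080))) (.sR 2176 (.leaf 0x4305c040081e01d13088bcb3880431080) (.sR 2192 (.leaf 0x45054040141e01f12080281a380451040) (.sr 2592 (.leaf 0x4305c040001e019130a02034880431040) (.leaf 0x4405c040001e033130a0137e080441040)))))) (.sR 2224 (.leaf 0x43060040341e02f13888c71f680431080) (.sg 41 (.sr 2592 (.leaf 0x440580002c1e0081288030ca780441040) (.leaf 0x440580002c1e00c1288030ca780441040)) (.sr 2592 (.leaf 0x450580002c1e019128802517c80451040) (.sR 2232 (.leaf 0x4505c0800c20022138889e05d80451080) (.leaf 0x4405c040102002213884b723f80441080)))))) (.sR 2208 (.sR 2112 (.leaf 0x44050040681e0281188c13fab80441040) (.sg 41 (.sR 2160 (.sR 2128 (.leaf 0x470540401c1e0101207ca4ada80471080) (.sR 2144 (.sr 2656 (.leaf 0x40050000041e0361180000000b0401004) (.leaf 0x40050000041e0391180000000b0401004)) (.leaf 0x45058040281e01012880a9d3580451080))) (.sR 2176 (.leaf 0x4205c040081e01013088d25d880421080) (.sR 2192 (.leaf 0x44058040141e0121289013fb580441040)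 (.leaf 0x44058040001e0121288c182cd80441040)))) (.sR 2160 (.sR 2128 (.leaf 0x470540401c1e0111207ca4ada80471080) (.sR 2144 (.sr 2656 (.leaf 0x40050000041e0371180000000b0401004) (.sR 2136 (.leaf 0x42054040201e016120943042b80421040) (.leaf 0x42054040241e01612090336cc80421040))) (.leaf 0x45058040281e01112880a9d3580451080))) (.sR 2176 (.leaf 0x4205c040081e01113088d25d880421080) (.sR 2192 (.leaf 0x44058040141e0131289013fb580441040) (.leaf 0x44058040001e0131288c182cd80441040)))))) (.sR 2224 (.leaf 0x42064040341e03814094da34380421080) (.sg 41 (.sr 2656 (.leaf 0x450580002c1e035128802517c80451040) (.sR 2232 (.leaf 0x430600400c1e02913888ca3b180431080) (.leaf 0x44060000101e02913884b723f80441080))) (.sr 2656 (.sR 2232 (.leaf 0x430600400c1e02613888ca3b180431080) (.leaf 0x44060000101e02613884b723f80441080)) (.leaf 0x450580002c1e016128802517c80451040)))))))))) (.sR 1952 (.leaf 0x44c40040401e0010f80000000bc441044) (.sR 2048 (.sR 1984 (.sR 1968 (.leaf 0x45044040441e0011000000000b844d044) (.leaf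 0x45044040481e0011000000000b8449044)) (.sR 2000 (.leaf 0x44c440404c1e0011000000000b8445044) (.sr 2624 (.sR 2016 (.leaf 0x4684c0403c1e0031100000000b845d044) (.sR 2032 (.leaf 0x4604c040501e0031100000000b8459044) (.leaf 0x45c4c040541e0031100000000b8455044))) (.sR 2016 (.leaf 0x454480403c1e0141080000000ac44d044) (.sR 2032 (.leaf 0x45048040501e0141080000000b0449044) (.leaf 0x44c48040541e0141080000000b8449044)))))) (.sR 2080 (.sR 2064 (.leaf 0x4584c040581e0011100000000b4451044) (.sr 2624 (.leaf 0x4544c040181e0031100000000b844d044) (.sg 43 (.leaf 0x4544c040181e0071100000000b444d044) (.leaf 0x4544c040181e0151100000000b444d044)))) (.sR 2096 (.leaf 0x4504c0405c1e0011100000000b4449044) (.sr 2624 (.sg 43 (.sR 2176 (.sR 2144 (.sR 2112 (.leaf 0x43050000301e0201188c2689580431040) (.sr 2592 (.sR 2128 (.leaf 0x40050000381e01c1180000000b0401004) (.leaf 0x40050000041e01c1180000000b0401004)) (.sR 2128 (.leaf 0x420580401c1e0321288cc7feb80421080) (.leaf 0x40050000041e0341180000000b4401004)))) (.sR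 2160 (.leaf 0x46058040281e00a128807e0d180461080) (.leaf 0x4405c040081e00a13088a726c80441080))) (.sR 2208 (.sR 2192 (.leaf 0x44054040141e020120803120680441040) (.sr 2592 (.leaf 0x4305c040001e02d130a02034880431040) (.leaf 0x44060040001e023138b41753780441040))) (.sR 2224 (.leaf 0x43064040341e00a14094c6a2280431080) (.sr 2592 (.sR 2232 (.leaf 0x440600400c1e01813888b409180441080) (.leaf 0x44060000101e01813884b723f80441080)) (.leaf 0x440580002c1e0231288030ca780441040))))) (.sR 2176 (.sR 2144 (.sR 2112 (.leaf 0x43050000301e0211188c2689580431040) (.sr 2592 (.sR 2128 (.leaf 0x430580401c1e0021288cb28dd80431080) (.sR 2136 (.leaf 0x43058040201e009128a81bf2380431040) (.leaf 0x43058040241e009128a41c64380431040))) (.sR 2128 (.leaf 0x420580401c1e0041288cc7feb80421080) (.sR 2136 (.leaf 0x43058040201e00d128a81bf2380431040) (.leaf 0x43058040241e00d128a41c64380431040))))) (.sR 2160 (.leaf 0x46058040281e01e128807e0d180461080) (.sr 2592 (.leaf 0x42060040081e00213894cf02e80421080) (.leaf 0x42060040081e00413894cf02e80421080))))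 (.sR 2208 (.sR 2192 (.leaf 0x45054040141e02112080281a380451040) (.sr 2592 (.leaf 0x4205c040001e009130a02e5d780421040) (.leaf 0x4205c040001e00d130a02e5d780421040))) (.sR 2224 (.leaf 0x43060040341e01e13888c71f680431080) (.sr 2592 (.sR 2232 (.leaf 0x430600400c1e00213888ca3b180431080) (.leaf 0x44060000101e00213884b723f80441080)) (.sR 2232 (.leaf 0x430600400c1e00413888ca3b180431080) (.leaf 0x44060000101e00413884b723f80441080))))))) (.sg 43 (.sR 2160 (.sR 2128 (.sR 2112 (.leaf 0x43050000301e0071188c2689580431040) (.leaf 0x470540401c1e0051207ca4ada80471080)) (.sR 2144 (.sr 2656 (.sR 2136 (.leaf 0x44058040201e00e128a81184680441040) (.leaf 0x44058040241e00e128a41151680441040)) (.sR 2136 (.leaf 0x42054040201e02c120943042b80421040) (.leaf 0x42054040241e02c12090336cc80421040))) (.leaf 0x45058040281e00512880a9d3580451080))) (.sR 2192 (.sR 2176 (.leaf 0x4305c040081e00513088bcb3880431080) (.leaf 0x45058040141e00712890069a180451040)) (.sR 2208 (.leaf 0x45058040001e0071288c072f080451040) (.sR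 2224 (.leaf 0x42068040341e0051489ce4a8f80421080) (.sr 2656 (.leaf 0x450580002c1e00e128802517c80451040) (.sR 2232 (.leaf 0x440640400c1e02a14090b3b4280441080) (.leaf 0x44064000101e02a14090b4aa080441080))))))) (.sR 2160 (.sR 2128 (.sR 2112 (.leaf 0x44050000301e0151188c13fab80441040) (.leaf 0x480540401c1e0061207c7d29980481080)) (.sR 2144 (.sr 2656 (.sR 2136 (.leaf 0x44058040201e00f128a81184680441040) (.leaf 0x44058040241e00f128a41151680441040)) (.sR 2136 (.leaf 0x43054040201e017120941fafd80431040) (.leaf 0x42054040241e01712090336cc80421040))) (.leaf 0x45058040281e00612880a9d3580451080))) (.sR 2192 (.sR 2176 (.leaf 0x4605c040081e006130887ca6380461080) (.leaf 0x44054040141e015120803120680441040)) (.sR 2208 (.sr 2656 (.leaf 0x43060040001e00f138b42054e80431040) (.leaf 0x43060040001e017138b42054e80431040)) (.sR 2224 (.leaf 0x42064040341e00614094da34380421080) (.sr 2656 (.sR 2232 (.leaf 0x440640400c1e02714090b3b4280441080) (.leaf 0x44060000101e02713884b723f80441080)) (.sR 2232 (.leaf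 0x430640400c1e02b14090c7b3380431080) (.leaf 0x44064000101e02b14090b4aa080441080))))))))))))))
theorem k172 : ChunkP 5 5 2560 2688 40 44 1920 2240 :=
  chkD_sound (Q := 40) (C := [c2745.c, c2747.c, c2653.c, c2701.c, c2863.c, c2937.c, c2939.c, c2943.c, c2655.c, c2658.c, c2693.c, c2696.c, c2864.c, c2867.c, c2903.c, c2904.c, c2934.c, c2936.c, c2940.c, c2942.c, c2944.c, c2945.c, c2984.c, c2986.c, c2651.c, c2656.c, c2659.c, c2660.c, c2661.c, c2691.c, c2695.c, c2698.c, c2700.c, c2702.c, c2860.c, c2866.c, c2868.c, c2869.c, c2897.c, c2900.c, c2941.c, c2978.c, c2981.c, c2982.c, c2985.c, c2657.c, c2689.c, c2690.c, c2697.c, c2699.c, c2861.c, c2865.c, c2870.c, c2901.c, c2905.c, c2906.c, c2935.c, c2987.c])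
    (T := [f_w548_552_4_45_42d, f_w532_536_0_45_35d, f_w540_544_8_45_35d, f_w556_558_8_42_45d, f_w558_560_8_42_42d, f_w544_548_4_45_42d, f_w516_520_4_40_45d, f_w528_532_8_45_45d, f_w532_534_4_42_42d, f_w534_536_4_42_42d, f_w536_540_8_45_45d, f_w556_560_4_42_36d, f_w524_528_4_45_35d, f_w552_556_8_50_35d, f_w528_532_0_45_35d, f_w500_504_4_40_45d, f_w480_488_4_40_40d, f_w488_492_4_40_45d, f_w492_496_4_40_45d, f_w496_500_4_40_45d, f_w504_508_4_40_45d, f_w508_512_4_40_45d, f_w512_516_4_50_45d, f_w520_524_4_50_45d, f_w536_540_4_42_42d, f_w504_512_4_55_45d, f_w524_528_4_50_45d]) (t := t172)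
    (all_cons p2745 (all_cons p2747 (all_cons p2653 (all_cons p2701 (all_cons p2863 (all_cons p2937 (all_cons p2939 (all_cons p2943 (all_cons p2655 (all_cons p2658 (all_cons p2693 (all_cons p2696 (all_cons p2864 (all_cons p2867 (all_cons p2903 (all_cons p2904 (all_cons p2934 (all_cons p2936 (all_cons p2940 (all_cons p2942 (all_cons p2944 (all_cons p2945 (all_cons p2984 (all_cons p2986 (all_cons p2651 (all_cons p2656 (all_cons p2659 (all_cons p2660 (all_cons p2661 (all_cons p2691 (all_cons p2695 (all_cons p2698 (all_cons p2700 (all_cons p2702 (all_cons p2860 (all_cons p2866 (all_cons p2868 (all_cons p2869 (all_cons p2897 (all_cons p2900 (all_cons p2941 (all_cons p2978 (all_cons p2981 (all_cons p2982 (all_cons p2985 (all_cons p2657 (all_cons p2689 (all_cons p2690 (all_cons p2697 (all_cons p2699 (all_cons p2861 (all_cons p2865 (all_cons p2870 (all_cons p2901 (all_cons p2905 (all_cons p2906 (all_cons p2935 (all_cons p2987 all_nil))))))))))))))))))))))))))))))))))))))))))))))))))))))))))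 (all_cons f_w548_552_4_45_42d_p (all_cons f_w532_536_0_45_35d_p (all_cons f_w540_544_8_45_35d_p (all_cons f_w556_558_8_42_45d_p (all_cons f_w558_560_8_42_42d_p (all_cons f_w544_548_4_45_42d_p (all_cons f_w516_520_4_40_45d_p (all_cons f_w528_532_8_45_45d_p (all_cons f_w532_534_4_42_42d_p (all_cons f_w534_536_4_42_42d_p (all_cons f_w536_540_8_45_45d_p (all_cons f_w556_560_4_42_36d_p (all_cons f_w524_528_4_45_35d_p (all_cons f_w552_556_8_50_35d_p (all_cons f_w528_532_0_45_35d_p (all_cons f_w500_504_4_40_45d_p (all_cons f_w480_488_4_40_40d_p (all_cons f_w488_492_4_40_45d_p (all_cons f_w492_496_4_40_45d_p (all_cons f_w496_500_4_40_45d_p (all_cons f_w504_508_4_40_45d_p (all_cons f_w508_512_4_40_45d_p (all_cons f_w512_516_4_50_45d_p (all_cons f_w520_524_4_50_45d_p (all_cons f_w536_540_4_42_42d_p (all_cons f_w504_512_4_55_45d_p (all_cons f_w524_528_4_50_45d_p all_nil)))))))))))))))))))))))))))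
    (by decide +kernel)

end Pool.Agent.Lib.MP_af3a4a_an.P1.CHK.DATA.N5
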