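import Pool.Agent.Lib.MP_af3a4a_an.P1.CHK.DATA.N5.K0
import Pool.Agent.Lib.MP_af3a4a_an.P1.CHK.DATA.N5.K1
import Pool.Agent.Lib.MP_af3a4a_an.P1.CHK.DATA.N5.K2
import Pool.Agent.Lib.MP_af3a4a_an.P1.CHK.DATA.N5.K3
import Pool.Agent.Lib.MP_af3a4a_an.P1.CHK.DATA.N5.K4
import Pool.Agent.Lib.MP_af3a4a_an.P1.CHK.DATA.N5.K5
import Pool.Agent.Lib.MP_af3a4a_an.P1.CHK.DATA.N5.K6
import Pool.Agent.Lib.MP_af3a4a_an.P1.CHK.DATA.N5.K7
import Pool.Agent.Lib.MP_af3a4a_an.P1.CHK.DATA.N5.K8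

/-! glue for 5 <= N <= 5 (generated) -/

set_option autoImplicit false
set_option maxRecDepth 100000

namespace Pool.Agent.Lib.MP_af3a4a_an.P1.CHK.DATA.N5

open BOX

theorem g0 : ChunkP 5 5 1536 2048 0 64 0 1920 := ChunkP.g k2 k3
theorem g1 : ChunkP 5 5 1536 2048 0 101 0 1920 := ChunkP.g g0 k4
theorem g2 : ChunkP 5 5 1024 2048 0 101 0 1920 := ChunkP.r k1 g1
theorem g3 : ChunkP 5 5 0 2048 0 101 0 1920 := ChunkP.r k0 g2
theorem g4 : ChunkP 5 5 2048 2560 16 32 1152 1920 := ChunkP.g k8 k9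
theorem g5 : ChunkP 5 5 2048 2560 16 32 1008 1920 := ChunkP.R k7 g4
theorem g6 : ChunkP 5 5 2048 2560 16 32 0 1920 := ChunkP.R k6 g5
theorem g7 : ChunkP 5 5 2048 2560 0 32 0 1920 := ChunkP.g k5 g6
theorem g8 : ChunkP 5 5 2048 2560 40 48 1200 1920 := ChunkP.r k14 k15
theorem g9 : ChunkP 5 5 2048 2560 40 48 1104 1920 := ChunkP.R k13 g8
theorem g10 : ChunkP 5 5 2048 2560 32 48 1104 1920 := ChunkP.g k12 g9
theorem g11 : ChunkP 5 5 2048 2560 32 48 1008 1920 := ChunkP.R k11 g10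
theorem g12 : ChunkP 5 5 2048 2560 32 48 0 1920 := ChunkP.R k10 g11
theorem g13 : ChunkP 5 5 2048 2560 48 64 1056 1920 := ChunkP.g k18 k19
theorem g14 : ChunkP 5 5 2048 2560 48 64 1008 1920 := ChunkP.R k17 g13
theorem g15 : ChunkP 5 5 2048 2560 48 64 0 1920 := ChunkP.R k16 g14
theorem g16 : ChunkP 5 5 2048 2560 32 64 0 1920 := ChunkP.g g12 g15
theorem g17 : ChunkP 5 5 2048 2560 0 64 0 1920 := ChunkP.g g7 g16
theorem g18 : ChunkP 5 5 2048 2560 0 101 0 1920 := ChunkP.g g17 k20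
theorem g19 : ChunkP 5 5 2560 3072 16 32 960 1920 := ChunkP.g k24 k25
theorem g20 : ChunkP 5 5 2560 3072 16 32 912 1920 := ChunkP.R k23 g19
theorem g21 : ChunkP 5 5 2560 3072 16 32 0 1920 := ChunkP.R k22 g20
theorem g22 : ChunkP 5 5 2560 3072 0 32 0 1920 := ChunkP.g k21 g21
theorem g23 : ChunkP 5 5 2560 3072 32 48 960 1920 := ChunkP.g k28 k29
theorem g24 : ChunkP 5 5 2560 3072 32 48 912 1920 := ChunkP.R k27 g23
theorem g25 : ChunkP 5 5 2560 3072 32 48 0 1920 := ChunkP.R k26 g24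
theorem g26 : ChunkP 5 5 2560 3072 48 56 1104 1920 := ChunkP.r k34 k35
theorem g27 : ChunkP 5 5 2560 3072 48 56 1056 1920 := ChunkP.R k33 g26
theorem g28 : ChunkP 5 5 2560 3072 56 64 1104 1920 := ChunkP.r k37 k38
theorem g29 : ChunkP 5 5 2560 3072 56 64 1056 1920 := ChunkP.R k36 g28
theorem g30 : ChunkP 5 5 2560 3072 48 64 1056 1920 := ChunkP.g g27 g29
theorem g31 : ChunkP 5 5 2560 3072 48 64 1008 1920 := ChunkP.R k32 g30
theorem g32 : ChunkP 5 5 2560 3072 48 64 960 1920 := ChunkP.R k31 g31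
theorem g33 : ChunkP 5 5 2560 3072 48 64 0 1920 := ChunkP.R k30 g32
theorem g34 : ChunkP 5 5 2560 3072 32 64 0 1920 := ChunkP.g g25 g33
theorem g35 : ChunkP 5 5 2560 3072 0 64 0 1920 := ChunkP.g g22 g34
theorem g36 : ChunkP 5 5 2560 3072 0 101 0 1920 := ChunkP.g g35 k39
theorem g37 : ChunkP 5 5 2048 3072 0 101 0 1920 := ChunkP.r g18 g36
theorem g38 : ChunkP 5 5 3072 3584 0 32 0 1920 := ChunkP.g k40 k41
theorem g39 : ChunkP 5 5 3072 3584 40 48 1008 1920 := ChunkP.r k46 k47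
theorem g40 : ChunkP 5 5 3072 3584 40 48 816 1920 := ChunkP.R k45 g39
theorem g41 : ChunkP 5 5 3072 3584 32 48 816 1920 := ChunkP.g k44 g40
theorem g42 : ChunkP 5 5 3072 3584 32 48 576 1920 := ChunkP.R k43 g41
theorem g43 : ChunkP 5 5 3072 3584 32 48 0 1920 := ChunkP.R k42 g42
theorem g44 : ChunkP 5 5 3072 3584 48 56 1008 1920 := ChunkP.r k51 k52
theorem g45 : ChunkP 5 5 3072 3584 48 56 912 1920 := ChunkP.R k50 g44
theorem g46 : ChunkP 5 5 3072 3584 48 64 912 1920 := ChunkP.g g45 k53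
theorem g47 : ChunkP 5 5 3072 3584 48 64 864 1920 := ChunkP.R k49 g46
theorem g48 : ChunkP 5 5 3072 3584 48 64 0 1920 := ChunkP.R k48 g47
theorem g49 : ChunkP 5 5 3072 3584 32 64 0 1920 := ChunkP.g g43 g48
theorem g50 : ChunkP 5 5 3072 3584 0 64 0 1920 := ChunkP.g g38 g49
theorem g51 : ChunkP 5 5 3072 3584 0 101 0 1920 := ChunkP.g g50 k54
theorem g52 : ChunkP 5 5 3584 4096 32 64 0 1920 := ChunkP.g k56 k57
theorem g53 : ChunkP 5 5 3584 4096 0 64 0 1920 := ChunkP.g k55 g52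
theorem g54 : ChunkP 5 5 3584 4096 0 101 0 1920 := ChunkP.g g53 k58
theorem g55 : ChunkP 5 5 3072 4096 0 101 0 1920 := ChunkP.r g51 g54
theorem g56 : ChunkP 5 5 2048 4096 0 101 0 1920 := ChunkP.r g37 g55
theorem g57 : ChunkP 5 5 0 4096 0 101 0 1920 := ChunkP.r g3 g56
theorem g58 : ChunkP 5 5 1536 2048 16 32 1920 2240 := ChunkP.r k62 k63
theorem g59 : ChunkP 5 5 1536 2048 0 32 1920 2240 := ChunkP.g k61 g58
theorem g60 : ChunkP 5 5 1792 2048 40 48 1920 2240 := ChunkP.r k66 k67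
theorem g61 : ChunkP 5 5 1792 2048 32 48 1920 2240 := ChunkP.g k65 g60
theorem g62 : ChunkP 5 5 1536 2048 32 48 1920 2240 := ChunkP.r k64 g61
theorem g63 : ChunkP 5 5 1792 2048 48 56 1920 2240 := ChunkP.r k69 k70
theorem g64 : ChunkP 5 5 1792 2048 48 64 1920 2240 := ChunkP.g g63 k71
theorem g65 : ChunkP 5 5 1536 2048 48 64 1920 2240 := ChunkP.r k68 g64
theorem g66 : ChunkP 5 5 1536 2048 32 64 1920 2240 := ChunkP.g g62 g65
theorem g67 : ChunkP 5 5 1536 2048 0 64 1920 2240 := ChunkP.g g59 g66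
theorem g68 : ChunkP 5 5 1536 2048 0 101 1920 2240 := ChunkP.g g67 k72
theorem g69 : ChunkP 5 5 1024 2048 0 101 1920 2240 := ChunkP.r k60 g68
theorem g70 : ChunkP 5 5 0 2048 0 101 1920 2240 := ChunkP.r k59 g69
theorem g71 : ChunkP 5 5 2048 2560 16 24 1920 2240 := ChunkP.r k74 k75
theorem g72 : ChunkP 5 5 2048 2304 24 32 1920 2240 := ChunkP.g k76 k77
theorem g73 : ChunkP 5 5 2048 2560 24 32 1920 2240 := ChunkP.r g72 k78
theorem g74 : ChunkP 5 5 2048 2560 16 32 1920 2240 := ChunkP.g g71 g73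
theorem g75 : ChunkP 5 5 2048 2560 0 32 1920 2240 := ChunkP.g k73 g74
theorem g76 : ChunkP 5 5 2048 2304 32 36 1920 2240 := ChunkP.r k79 k80
theorem g77 : ChunkP 5 5 2048 2304 36 40 1920 2240 := ChunkP.r k81 k82
theorem g78 : ChunkP 5 5 2048 2304 32 40 1920 2240 := ChunkP.g g76 g77
theorem g79 : ChunkP 5 5 2304 2560 36 40 1920 2240 := ChunkP.r k84 k85
theorem g80 : ChunkP 5 5 2304 2560 32 40 1920 2240 := ChunkP.g k83 g79
theorem g81 : ChunkP 5 5 2048 2560 32 40 1920 2240 := ChunkP.r g78 g80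
theorem g82 : ChunkP 5 5 2048 2304 40 44 1920 2240 := ChunkP.r k86 k87
theorem g83 : ChunkP 5 5 2048 2304 44 48 1920 2240 := ChunkP.r k88 k89
theorem g84 : ChunkP 5 5 2048 2304 40 48 1920 2240 := ChunkP.g g82 g83
theorem g85 : ChunkP 5 5 2432 2560 40 44 1920 2240 := ChunkP.g k91 k92
theorem g86 : ChunkP 5 5 2304 2560 40 44 1920 2240 := ChunkP.r k90 g85
theorem g87 : ChunkP 5 5 2304 2432 46 48 2048 2240 := ChunkP.r k98 k99
theorem g88 : ChunkP 5 5 2304 2432 46 48 2032 2240 := ChunkP.R k97 g87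
theorem g89 : ChunkP 5 5 2304 2432 46 48 2000 2240 := ChunkP.R k96 g88
theorem g90 : ChunkP 5 5 2304 2432 46 48 1952 2240 := ChunkP.R k95 g89
theorem g91 : ChunkP 5 5 2304 2432 44 48 1952 2240 := ChunkP.g k94 g90
theorem g92 : ChunkP 5 5 2304 2432 44 48 1920 2240 := ChunkP.R k93 g91
theorem g93 : ChunkP 5 5 2432 2560 44 48 1920 2240 := ChunkP.g k100 k101
theorem g94 : ChunkP 5 5 2304 2560 44 48 1920 2240 := ChunkP.r g92 g93
theorem g95 : ChunkP 5 5 2304 2560 40 48 1920 2240 := ChunkP.g g86 g94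
theorem g96 : ChunkP 5 5 2048 2560 40 48 1920 2240 := ChunkP.r g84 g95
theorem g97 : ChunkP 5 5 2048 2560 32 48 1920 2240 := ChunkP.g g81 g96
theorem g98 : ChunkP 5 5 2176 2304 48 52 1952 2240 := ChunkP.g k104 k105
theorem g99 : ChunkP 5 5 2176 2304 48 52 1920 2240 := ChunkP.R k103 g98
theorem g100 : ChunkP 5 5 2048 2304 48 52 1920 2240 := ChunkP.r k102 g99
theorem g101 : ChunkP 5 5 2048 2176 52 56 2080 2240 := ChunkP.g k109 k110
theorem g102 : ChunkP 5 5 2048 2176 52 56 2048 2240 := ChunkP.R k108 g101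
theorem g103 : ChunkP 5 5 2048 2176 52 56 2016 2240 := ChunkP.R k107 g102
theorem g104 : ChunkP 5 5 2048 2176 52 56 1920 2240 := ChunkP.R k106 g103
theorem g105 : ChunkP 5 5 2176 2304 52 56 1984 2240 := ChunkP.g k113 k114
theorem g106 : ChunkP 5 5 2176 2304 52 56 1952 2240 := ChunkP.R k112 g105
theorem g107 : ChunkP 5 5 2176 2304 52 56 1920 2240 := ChunkP.R k111 g106
theorem g108 : ChunkP 5 5 2048 2304 52 56 1920 2240 := ChunkP.r g104 g107
theorem g109 : ChunkP 5 5 2048 2304 48 56 1920 2240 := ChunkP.g g100 g108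
theorem g110 : ChunkP 5 5 2304 2432 48 50 2048 2240 := ChunkP.r k119 k120
theorem g111 : ChunkP 5 5 2304 2432 48 50 2032 2240 := ChunkP.R k118 g110
theorem g112 : ChunkP 5 5 2304 2432 48 50 2000 2240 := ChunkP.R k117 g111
theorem g113 : ChunkP 5 5 2304 2432 48 50 1952 2240 := ChunkP.R k116 g112
theorem g114 : ChunkP 5 5 2304 2432 48 52 1952 2240 := ChunkP.g g113 k121
theorem g115 : ChunkP 5 5 2304 2432 48 52 1920 2240 := ChunkP.R k115 g114
theorem g116 : ChunkP 5 5 2432 2560 50 52 2048 2240 := ChunkP.r k127 k128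
theorem g117 : ChunkP 5 5 2432 2560 50 52 2032 2240 := ChunkP.R k126 g116
theorem g118 : ChunkP 5 5 2432 2560 50 52 2000 2240 := ChunkP.R k125 g117
theorem g119 : ChunkP 5 5 2432 2560 50 52 1952 2240 := ChunkP.R k124 g118
theorem g120 : ChunkP 5 5 2432 2560 50 52 1920 2240 := ChunkP.R k123 g119
theorem g121 : ChunkP 5 5 2432 2560 48 52 1920 2240 := ChunkP.g k122 g120
theorem g122 : ChunkP 5 5 2304 2560 48 52 1920 2240 := ChunkP.r g115 g121
theorem g123 : ChunkP 5 5 2304 2432 54 56 2096 2240 := ChunkP.r k135 k136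
theorem g124 : ChunkP 5 5 2304 2432 54 56 2080 2240 := ChunkP.R k134 g123
theorem g125 : ChunkP 5 5 2304 2432 54 56 2048 2240 := ChunkP.R k133 g124
theorem g126 : ChunkP 5 5 2304 2432 54 56 2016 2240 := ChunkP.R k132 g125
theorem g127 : ChunkP 5 5 2304 2432 54 56 1952 2240 := ChunkP.R k131 g126
theorem g128 : ChunkP 5 5 2304 2432 52 56 1952 2240 := ChunkP.g k130 g127
theorem g129 : ChunkP 5 5 2304 2432 52 56 1920 2240 := ChunkP.R k129 g128
theorem g130 : ChunkP 5 5 2432 2560 52 54 2032 2240 := ChunkP.R k140 k141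
theorem g131 : ChunkP 5 5 2432 2560 52 54 2000 2240 := ChunkP.R k139 g130
theorem g132 : ChunkP 5 5 2432 2560 52 54 1952 2240 := ChunkP.R k138 g131
theorem g133 : ChunkP 5 5 2432 2560 52 54 1920 2240 := ChunkP.R k137 g132
theorem g134 : ChunkP 5 5 2432 2560 52 56 1920 2240 := ChunkP.g g133 k142
theorem g135 : ChunkP 5 5 2304 2560 52 56 1920 2240 := ChunkP.r g129 g134
theorem g136 : ChunkP 5 5 2304 2560 48 56 1920 2240 := ChunkP.g g122 g135
theorem g137 : ChunkP 5 5 2048 2560 48 56 1920 2240 := ChunkP.r g109 g136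
theorem g138 : ChunkP 5 5 2176 2304 56 60 2048 2240 := ChunkP.g k147 k148
theorem g139 : ChunkP 5 5 2176 2304 56 60 2016 2240 := ChunkP.R k146 g138
theorem g140 : ChunkP 5 5 2176 2304 56 60 1984 2240 := ChunkP.R k145 g139
theorem g141 : ChunkP 5 5 2176 2304 56 60 1920 2240 := ChunkP.R k144 g140
theorem g142 : ChunkP 5 5 2048 2304 56 60 1920 2240 := ChunkP.r k143 g141
theorem g143 : ChunkP 5 5 2048 2304 56 64 1920 2240 := ChunkP.g g142 k149
theorem g144 : ChunkP 5 5 2304 2432 56 58 2096 2240 := ChunkP.r k155 k156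
theorem g145 : ChunkP 5 5 2304 2432 56 58 2080 2240 := ChunkP.R k154 g144
theorem g146 : ChunkP 5 5 2304 2432 56 58 2048 2240 := ChunkP.R k153 g145
theorem g147 : ChunkP 5 5 2304 2432 56 58 2016 2240 := ChunkP.R k152 g146
theorem g148 : ChunkP 5 5 2304 2432 56 58 1952 2240 := ChunkP.R k151 g147
theorem g149 : ChunkP 5 5 2304 2432 56 60 1952 2240 := ChunkP.g g148 k157
theorem g150 : ChunkP 5 5 2304 2432 56 60 1920 2240 := ChunkP.R k150 g149
theorem g151 : ChunkP 5 5 2304 2560 56 60 1920 2240 := ChunkP.r g150 k158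
theorem g152 : ChunkP 5 5 2304 2560 56 64 1920 2240 := ChunkP.g g151 k159
theorem g153 : ChunkP 5 5 2048 2560 56 64 1920 2240 := ChunkP.r g143 g152
theorem g154 : ChunkP 5 5 2048 2560 48 64 1920 2240 := ChunkP.g g137 g153
theorem g155 : ChunkP 5 5 2048 2560 32 64 1920 2240 := ChunkP.g g97 g154
theorem g156 : ChunkP 5 5 2048 2560 0 64 1920 2240 := ChunkP.g g75 g155
theorem g157 : ChunkP 5 5 2048 2560 0 101 1920 2240 := ChunkP.g g156 k160
theorem g158 : ChunkP 5 5 2560 2816 24 32 1920 2240 := ChunkP.g k163 k164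
theorem g159 : ChunkP 5 5 2560 3072 24 32 1920 2240 := ChunkP.r g158 k165
theorem g160 : ChunkP 5 5 2560 3072 16 32 1920 2240 := ChunkP.g k162 g159
theorem g161 : ChunkP 5 5 2560 3072 0 32 1920 2240 := ChunkP.g k161 g160
theorem g162 : ChunkP 5 5 2560 2816 32 36 1920 2240 := ChunkP.r k166 k167
theorem g163 : ChunkP 5 5 2560 2816 36 40 1920 2240 := ChunkP.r k168 k169
theorem g164 : ChunkP 5 5 2560 2816 32 40 1920 2240 := ChunkP.g g162 g163
theorem g165 : ChunkP 5 5 2816 3072 32 40 1920 2240 := ChunkP.g k170 k171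
theorem g166 : ChunkP 5 5 2560 3072 32 40 1920 2240 := ChunkP.r g164 g165
theorem g167 : ChunkP 5 5 2560 2816 40 44 1920 2240 := ChunkP.r k172 k173
theorem g168 : ChunkP 5 5 2560 2816 44 48 1920 2240 := ChunkP.r k174 k175
theorem g169 : ChunkP 5 5 2560 2816 40 48 1920 2240 := ChunkP.g g167 g168
theorem g170 : ChunkP 5 5 2816 2944 44 48 1920 2240 := ChunkP.g k177 k178
theorem g171 : ChunkP 5 5 2816 3072 44 48 1920 2240 := ChunkP.r g170 k179
theorem g172 : ChunkP 5 5 2816 3072 40 48 1920 2240 := ChunkP.g k176 g171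
theorem g173 : ChunkP 5 5 2560 3072 40 48 1920 2240 := ChunkP.r g169 g172
theorem g174 : ChunkP 5 5 2560 3072 32 48 1920 2240 := ChunkP.g g166 g173
theorem g175 : ChunkP 5 5 2560 2688 48 52 1920 2240 := ChunkP.g k180 k181
theorem g176 : ChunkP 5 5 2688 2816 48 52 1920 2240 := ChunkP.g k182 k183
theorem g177 : ChunkP 5 5 2560 2816 48 52 1920 2240 := ChunkP.r g175 g176
theorem g178 : ChunkP 5 5 2560 2816 52 56 1920 2240 := ChunkP.r k184 k185
theorem g179 : ChunkP 5 5 2560 2816 48 56 1920 2240 := ChunkP.g g177 g178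
theorem g180 : ChunkP 5 5 2560 3072 48 56 1920 2240 := ChunkP.r g179 k186
theorem g181 : ChunkP 5 5 2560 3072 48 64 1920 2240 := ChunkP.g g180 k187
theorem g182 : ChunkP 5 5 2560 3072 32 64 1920 2240 := ChunkP.g g174 g181
theorem g183 : ChunkP 5 5 2560 3072 0 64 1920 2240 := ChunkP.g g161 g182
theorem g184 : ChunkP 5 5 2560 3072 0 101 1920 2240 := ChunkP.g g183 k188
theorem g185 : ChunkP 5 5 2048 3072 0 101 1920 2240 := ChunkP.r g157 g184
theorem g186 : ChunkP 5 5 3072 3584 0 32 1920 2240 := ChunkP.g k189 k190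
theorem g187 : ChunkP 5 5 3072 3584 32 64 1920 2240 := ChunkP.g k191 k192
theorem g188 : ChunkP 5 5 3072 3584 0 64 1920 2240 := ChunkP.g g186 g187
theorem g189 : ChunkP 5 5 3072 3584 0 101 1920 2240 := ChunkP.g g188 k193
theorem g190 : ChunkP 5 5 3072 4096 0 101 1920 2240 := ChunkP.r g189 k194
theorem g191 : ChunkP 5 5 2048 4096 0 101 1920 2240 := ChunkP.r g185 g190
theorem g192 : ChunkP 5 5 0 4096 0 101 1920 2240 := ChunkP.r g70 g191
theorem g193 : ChunkP 5 5 0 4096 0 101 0 2240 := ChunkP.R g57 g192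

/-- the whole box -/
theorem allBox : ChunkP 5 5 0 4096 0 101 0 2240 := g193

theorem full {N : ℕ} (hNa : 5 ≤ N) (hNb : N ≤ 5) {z w : Fin N → ℂ} {R : ℝ} {σ : Fin N → ℂ}
    (hC : Pool.Agent.Lib.MP_af3a4a_an.P1.H80.Cfg2 N z w R σ) : ((2240 : ℕ) : ℝ) / 1024 < R := ChunkP.full allBox hNa hNb hC

end Pool.Agent.Lib.MP_af3a4a_an.P1.CHK.DATA.N5
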